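import Mathlib
import Pool.Agent.K4H66.OL.F

set_option autoImplicit false

/-! Pieces for the derivative moments (each a `Prop`). -/

namespace Pool.Agent.K4H66.DM2

open MeasureTheory Set
open scoped ContDiff

/-- P1: Cauchy's estimate in mean square. -/
def P1 : Prop := ∀ (f : ℂ → ℂ) (c : ℂ) (R : ℝ) (n : ℕ), 0 < R →
  (∀ s ∈ Metric.closedBall c R, DifferentiableAt ℂ f s) →
  ‖iteratedDeriv n f c‖ ^ 2 ≤ (n.factorial : ℝ) ^ 2 * (R⁻¹) ^ (2 * n) * (2 * Real.pi)⁻¹ *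
    ∫ θ in (0:ℝ)..(2 * Real.pi), ‖f (c + R * Complex.exp (θ * Complex.I))‖ ^ 2

/-- P2: finite differences against derivatives in mean square. -/
def P2 : Prop := ∀ (n : ℕ), ∃ C : ℝ, 0 ≤ C ∧ ∀ (f : ℝ → ℂ), ContDiff ℝ ∞ f → ∀ (a b h : ℝ), a ≤ b → 0 < h →
  ∫ t in a..b, ‖(h⁻¹ : ℝ) ^ n • (fwdDiff h)^[n] f t - iteratedDeriv n f t‖ ^ 2 ≤
    C * h ^ 2 * ∫ t in a..(b + n * h), ‖iteratedDeriv (n + 1) f t‖ ^ 2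

/-- P3: Muntz for even powers on `[0,K]`. -/
def P3 : Prop := ∀ (S : Set ℕ), (∀ j ∈ S, 1 ≤ j) → ¬ Summable (fun j : S => ((j : ℕ) : ℝ)⁻¹) →
  ∀ (g : ℝ → ℝ), Continuous g → ∀ (K ε : ℝ), 0 < K → 0 < ε →
  ∃ (s : Finset ℕ) (c : ℕ → ℝ), (∀ j ∈ s, j ∈ S ∨ j = 0) ∧
    ∀ x ∈ Icc (0:ℝ) K, |g x - ∑ j ∈ s, c j * x ^ (2 * j)| ≤ ε

end Pool.Agent.K4H66.DM2
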