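import Pool.Agent.K4H66.LP.E
import Pool.Agent.K4H66.DM2.Spec

set_option autoImplicit false

/-! Finite differences on the Fourier side. -/

namespace Pool.Agent.K4H66.DM2

open Complex MeasureTheory Filter Topology Set Pool.Agent.TH535.SM Pool.Agent.K4H66.OL Pool.Agent.R446.KR
  Pool.Agent.K4H66.HL Pool.Agent.K4H66.LP
open scoped ComplexConjugate ContDiff FourierTransform ENNReal

noncomputable section

variable {F : ℝ → ℂ} {k : ℕ}

lemma fd_step (h : ℝ) (n : ℕ) (F : ℝ → ℂ) : (fwdDiff h)^[n + 1] F =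
    fun t => (fwdDiff h)^[n] F (t + h) - (fwdDiff h)^[n] F t := by
  rw [Function.iterate_succ_apply']
  rfl

lemma fd_dec (hF : Dec F) (h : ℝ) (n : ℕ) : Dec ((fwdDiff h)^[n] F) := by
  induction n with
  | zero => exact hF
  | succ n ih =>
    rw [fd_step]
    exact (ih.shift h).sub ih

lemma ft_sub {F G : ℝ → ℂ} (hF : Dec F) (hG : Dec G) (w : ℝ) :
    𝓕 (fun t => F t - G t) w = 𝓕 F w - 𝓕 G w := by
  have h := ft_add hF (hG.smul (-1)) w
  rw [ft_smul] at h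
  have e : (fun t => F t + -1 * G t) = fun t => F t - G t := by funext t; ring
  rw [e] at h
  rw [h]; ring

lemma fd_ft (hF : Dec F) (h : ℝ) (n : ℕ) (w : ℝ) :
    𝓕 ((fwdDiff h)^[n] F) w = (cexp (2 * Real.pi * w * h * I) - 1) ^ n * 𝓕 F w := by
  induction n with
  | zero => rw [pow_zero, one_mul]; rfl
  | succ n ih =>
    rw [fd_step, ft_sub ((fd_dec hF h n).shift h) (fd_dec hF h n), ft_shift, ih]
    ring

/-- the multiplier of `n` differences with step `η / log T` -/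
def mn (η : ℝ) (n : ℕ) (x : ℝ) : ℝ := ‖cexp (((-(η * x) : ℝ) : ℂ) * I) - 1‖ ^ (2 * n)

lemma mn_cont (η : ℝ) (n : ℕ) : Continuous (mn η n) := by unfold mn; fun_prop

lemma mn_nonneg (η : ℝ) (n : ℕ) (x : ℝ) : 0 ≤ mn η n x := by unfold mn; positivity

lemma mn_le (η : ℝ) (n : ℕ) (x : ℝ) : mn η n x ≤ 2 ^ (2 * n) := by
  unfold mn
  refine pow_le_pow_left₀ (norm_nonneg _) ((norm_sub_le _ _).trans ?_) _
  rw [Complex.norm_exp_ofReal_mul_I, norm_one]
  norm_num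

lemma mn_abs (η : ℝ) (n : ℕ) (x : ℝ) : |mn η n x| ≤ 2 ^ (2 * n) := by
  rw [abs_of_nonneg (mn_nonneg η n x)]; exact mn_le η n x

theorem fd_planch (k : ℕ) {u : ℕ} (hu : 1 ≤ u) {T : ℝ} (hT : 1 < T) (η : ℝ) (n : ℕ) :
    ∫ t, ‖(fwdDiff (η / Real.log T))^[n] (f1 (H k u) T) t‖ ^ 2 = Sf k u T (mn η n) := by
  have hd := f1_dec (zdat k hu) hT.le
  rw [← (planch (fd_dec hd _ n)).2]
  unfold Sf
  refine integral_congr_ae (Eventually.of_forall fun w => ?_)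
  beta_reduce
  rw [fd_ft hd, norm_mul, norm_pow, mul_pow, ← pow_mul, mul_comm n 2]
  unfold mn
  have e : (2 * Real.pi * w * ((η / Real.log T : ℝ) : ℂ) * I : ℂ) =
      ((-(η * -(2 * Real.pi * w / Real.log T)) : ℝ) : ℂ) * I := by
    push_cast
    ring
  rw [e]

lemma pow_diff {a b K : ℝ} (ha : 0 ≤ a) (hb : 0 ≤ b) (haK : a ≤ K) (hbK : b ≤ K) (hK : 1 ≤ K) (m : ℕ) :
    |a ^ m - b ^ m| ≤ m * K ^ m * |a - b| := by
  induction m with
  | zero => simp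
  | succ m ih =>
    have e : a ^ (m + 1) - b ^ (m + 1) = a * (a ^ m - b ^ m) + (a - b) * b ^ m := by ring
    rw [e]
    have h1 : |a * (a ^ m - b ^ m)| ≤ K * (m * K ^ m * |a - b|) := by
      rw [abs_mul, abs_of_nonneg ha]
      gcongr
    have h2 : |(a - b) * b ^ m| ≤ |a - b| * K ^ (m + 1) := by
      rw [abs_mul, abs_of_nonneg (pow_nonneg hb m)]
      gcongr
      calc b ^ m ≤ K ^ m := by gcongr
        _ ≤ K ^ (m + 1) := pow_le_pow_right₀ hK (Nat.le_succ m)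
    refine (abs_add_le _ _).trans ((add_le_add h1 h2).trans (le_of_eq ?_))
    push_cast
    ring

lemma mn_small (n : ℕ) {K : ℝ} (hK : 0 ≤ K) {η : ℝ} (hη : 0 < η) (hηK : η * K ≤ 1) {x : ℝ} (hx : |x| ≤ K) :
    |(η⁻¹) ^ (2 * n) * mn η n x - x ^ (2 * n)| ≤ (2 * n * (2 * K + 1) ^ (2 * n) * K ^ 2) * η := by
  set a : ℝ := η⁻¹ * ‖cexp (((-(η * x) : ℝ) : ℂ) * I) - 1‖ with ha
  have ha0 : 0 ≤ a := by positivity
  have hηx : η * |x| ≤ 1 := (mul_le_mul_of_nonneg_left hx hη.le).trans hηK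
  have hz : ‖((-(η * x) : ℝ) : ℂ) * I‖ = η * |x| := by
    rw [norm_mul, Complex.norm_I, mul_one, Complex.norm_real, Real.norm_eq_abs, abs_neg, abs_mul, abs_of_pos hη]
  have h1 := Complex.norm_exp_sub_one_sub_id_le (x := ((-(η * x) : ℝ) : ℂ) * I) (by rw [hz]; exact hηx)
  rw [hz] at h1
  have h2 : |‖cexp (((-(η * x) : ℝ) : ℂ) * I) - 1‖ - η * (|x|)| ≤ (η * |x|) ^ 2 := by
    rw [← hz]
    refine (abs_norm_sub_norm_le _ _).trans ?_
    rw [hz]; exact h1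
  have hb : |a - (|x|)| ≤ η * K ^ 2 := by
    have e : a - |x| = η⁻¹ * (‖cexp (((-(η * x) : ℝ) : ℂ) * I) - 1‖ - η * |x|) := by
      rw [ha]; field_simp
    rw [e, abs_mul, abs_of_pos (inv_pos.2 hη)]
    calc _ ≤ η⁻¹ * (η * |x|) ^ 2 := by gcongr
      _ = η * |x| ^ 2 := by field_simp
      _ ≤ _ := by gcongr
  have haK : a ≤ 2 * K + 1 := by
    have h3 := (abs_le.1 hb).2
    have h4 : η * K ^ 2 ≤ K := by
      calc η * K ^ 2 = (η * K) * K := by ring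
        _ ≤ 1 * K := by gcongr
        _ = K := one_mul K
    linarith
  have h5 := pow_diff ha0 (abs_nonneg x) haK (by linarith) (by linarith) (2 * n)
  have e1 : (η⁻¹) ^ (2 * n) * mn η n x = a ^ (2 * n) := by
    rw [ha, mul_pow]; rfl
  have e2 : x ^ (2 * n) = |x| ^ (2 * n) := by rw [pow_mul, pow_mul, sq_abs]
  rw [e1, e2]
  refine h5.trans ?_
  push_cast
  calc 2 * (n:ℝ) * (2 * K + 1) ^ (2 * n) * |a - (|x|)| ≤ 2 * (n:ℝ) * (2 * K + 1) ^ (2 * n) * (η * K ^ 2) := by gcongr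
    _ = _ := by ring

end

end Pool.Agent.K4H66.DM2
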