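import Pool.Agent.K4H66.DM2.A

set_option autoImplicit false

/-! Finite differences of `ζ^k` in a window. -/

namespace Pool.Agent.K4H66.DM2

open Complex MeasureTheory Filter Topology Set Pool.Agent.TH535.SM Pool.Agent.K4H66.OL Pool.Agent.R446.KR
  Pool.Agent.K4H66.HL Pool.Agent.K4H66.LP
open scoped ComplexConjugate ContDiff FourierTransform ENNReal

noncomputable section

variable {F : ℝ → ℂ} {k : ℕ}

lemma fd_cont (hF : Continuous F) (h : ℝ) (n : ℕ) : Continuous ((fwdDiff h)^[n] F) := by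
  induction n with
  | zero => exact hF
  | succ n ih =>
    rw [fd_step]
    exact (ih.comp (continuous_add_const h)).sub ih

/-- the error term -/
def Er (k : ℕ) (T : ℝ) : ℝ := Rm (zr k 0) T + (Om (zr k 0) T + Om (zr k 0) (2 * T))

lemma Om_nn (z : ℝ → ℂ) (T : ℝ) : 0 ≤ Om z T := integral_nonneg fun t => by have := Wq_nonneg T t; positivity

lemma Er_pos (k : ℕ) (T : ℝ) : 1 ≤ Er k T := by
  have h1 := Rm_pos (zr k 0) T
  have h2 := Om_nn (zr k 0) T
  have h3 := Om_nn (zr k 0) (2 * T)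
  unfold Er; linarith

theorem wfd (k : ℕ) {u : ℕ} (hu : 1 ≤ u) (n : ℕ) : ∃ C : ℝ, 0 ≤ C ∧ ∀ T : ℝ, 1 ≤ T → ∀ h : ℝ, 0 ≤ h →
    ∀ y : ℝ, 0 ≤ y → y + n * h ≤ 1 →
    ∫⁻ t, ‖(wd T t : ℂ) * (fwdDiff h)^[n] (zr k 0) (t + y) - (fwdDiff h)^[n] (f1 (H k u) T) (t + y)‖ₑ ^ 2 ≤
      ENNReal.ofReal (C * Er k T) := by
  have D := zdat k hu
  have hzc : Continuous (zr k 0) := D.zc
  induction n with
  | zero =>
    obtain ⟨C1, hC1, h1⟩ := f01 D
    refine ⟨2 * (1 + C1), by positivity, fun T hT h hh y hy hyh => ?_⟩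
    have hyT : |y| ≤ |√T| := by
      rw [abs_of_nonneg hy, abs_of_nonneg (Real.sqrt_nonneg T)]
      have : y ≤ 1 := by simpa using hyh
      exact this.trans (by rw [Real.one_le_sqrt]; exact hT)
    refine (win_shift D hT y).trans ?_
    have o1 := Osc_mono D T hyT
    have o2 := Osc_mono D (2 * T) hyT
    have o3 := Osc_nonneg (zr k 0) T y
    have o4 := Osc_nonneg (zr k 0) (2 * T) y
    have h2 := Om_nn (zr k 0) T
    have h3 := Om_nn (zr k 0) (2 * T)
    calc _ ≤ 2 * ENNReal.ofReal (Osc (zr k 0) T y + Osc (zr k 0) (2 * T) y) +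
          2 * ENNReal.ofReal (C1 * (Om (zr k 0) (2 * T) + Om (zr k 0) T)) := by gcongr; exact h1 T hT
      _ = ENNReal.ofReal (2 * (Osc (zr k 0) T y + Osc (zr k 0) (2 * T) y) +
          2 * (C1 * (Om (zr k 0) (2 * T) + Om (zr k 0) T))) := by
          rw [ofR2 (by positivity) (by positivity)]
      _ ≤ _ := by
          refine ENNReal.ofReal_le_ofReal ?_
          unfold Er Rm
          have q1 : Osc (zr k 0) T y + Osc (zr k 0) (2 * T) y ≤
              1 + Osc (zr k 0) T (√T) + Osc (zr k 0) (2 * T) (√T) := by linarith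
          have q2 : 0 ≤ Osc (zr k 0) T (√T) := Osc_nonneg _ _ _
          have q3 : 0 ≤ Osc (zr k 0) (2 * T) (√T) := Osc_nonneg _ _ _
          have q4 : 0 ≤ C1 * (1 + Osc (zr k 0) T (√T) + Osc (zr k 0) (2 * T) (√T)) := by positivity
          nlinarith
  | succ n ih =>
    obtain ⟨C, hC, hc⟩ := ih
    refine ⟨4 * C, by positivity, fun T hT h hh y hy hyh => ?_⟩
    push_cast at hyh
    have hd := f1_dec D hT
    have e : ∀ t, (wd T t : ℂ) * (fwdDiff h)^[n + 1] (zr k 0) (t + y) - (fwdDiff h)^[n + 1] (f1 (H k u) T) (t + y) =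
        ((wd T t : ℂ) * (fwdDiff h)^[n] (zr k 0) (t + (y + h)) - (fwdDiff h)^[n] (f1 (H k u) T) (t + (y + h))) +
        (-1) * ((wd T t : ℂ) * (fwdDiff h)^[n] (zr k 0) (t + y) - (fwdDiff h)^[n] (f1 (H k u) T) (t + y)) := by
      intro t
      rw [fd_step, fd_step]
      beta_reduce
      rw [add_assoc t y h]
      ring
    simp_rw [e]
    have hm : Measurable (fun t => (wd T t : ℂ) * (fwdDiff h)^[n] (zr k 0) (t + (y + h)) -
        (fwdDiff h)^[n] (f1 (H k u) T) (t + (y + h))) := by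
      refine Measurable.sub (Measurable.mul (Complex.measurable_ofReal.comp (wd_meas T)) ?_) ?_
      · exact ((fd_cont hzc h n).comp (continuous_add_const (y + h))).measurable
      · exact ((fd_cont hd.cont h n).comp (continuous_add_const (y + h))).measurable
    refine (n2_add _ _ hm).trans ?_
    have a1 := hc T hT h hh (y + h) (by positivity) (by linarith)
    have a2 := hc T hT h hh y hy (by
      have : 0 ≤ h := hh
      linarith)
    have a3 : ∫⁻ t, ‖(-1) * ((wd T t : ℂ) * (fwdDiff h)^[n] (zr k 0) (t + y) -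
        (fwdDiff h)^[n] (f1 (H k u) T) (t + y))‖ₑ ^ 2 ≤ ENNReal.ofReal (C * Er k T) := by
      refine le_trans (le_of_eq (lintegral_congr fun t => ?_)) a2
      rw [neg_one_mul, enorm_neg]
    have hE := Er_pos k T
    calc _ ≤ 2 * ENNReal.ofReal (C * Er k T) + 2 * ENNReal.ofReal (C * Er k T) := by gcongr
      _ = ENNReal.ofReal (2 * (C * Er k T) + 2 * (C * Er k T)) := by
          rw [ofR2 (by positivity) (by positivity)]
      _ = _ := by congr 1; ring

lemma Sf_mass (k : ℕ) {u : ℕ} (hu : 1 ≤ u) {T : ℝ} (hT : 1 ≤ T) {g : ℝ → ℝ} (hg : Continuous g) {b : ℝ}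
    (hb : ∀ x, |g x| ≤ b) : |Sf k u T g| ≤ b * ∫ t, ‖f1 (H k u) T t‖ ^ 2 := by
  have hd := f1_dec (zdat k hu) hT
  rw [← (planch hd).2, ← integral_const_mul]
  unfold Sf
  refine (abs_integral_le_integral_abs).trans (integral_mono (Sf_int k hu hT hg hb).abs ((planch hd).1.const_mul b)
    fun w => ?_)
  beta_reduce
  rw [abs_mul, abs_of_nonneg (by positivity : (0:ℝ) ≤ ‖𝓕 (f1 (H k u) T) w‖ ^ 2)]
  exact mul_le_mul_of_nonneg_right (hb _) (by positivity)

/-- differences of `ζ^k` on `[T,2T]` against the spectral measure -/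
theorem dd_close (k : ℕ) {u : ℕ} (hu : 1 ≤ u) (n : ℕ) {η : ℝ} (hη : 0 < η) (hηn : η * n ≤ 1) :
    Neg k (fun T => (∫ t in T..(2 * T), ‖(fwdDiff (η / Real.log T))^[n] (zr k 0) t‖ ^ 2) - Sf k u T (mn η n)) := by
  intro ε hε
  obtain ⟨C, hC, hc⟩ := wfd k hu n
  have D := zdat k hu
  have hzc : Continuous (zr k 0) := D.zc
  set ε1 : ℝ := min 1 (ε / (6 * 2 ^ (2 * n))) with hε1
  have hε10 : 0 < ε1 := by positivity
  have hε11 : ε1 ≤ 1 := min_le_left _ _
  have hε12 : 2 * ε1 * 2 ^ (2 * n) ≤ ε / 3 := by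
    have h1 : ε1 ≤ ε / (6 * 2 ^ (2 * n)) := min_le_right _ _
    calc 2 * ε1 * 2 ^ (2 * n) ≤ 2 * (ε / (6 * 2 ^ (2 * n))) * 2 ^ (2 * n) := by gcongr
      _ = ε / 3 := by field_simp; ring
  set A : ℝ := (2 + 2 * ε1⁻¹) * C with hA
  have hA0 : 0 ≤ A := by positivity
  obtain ⟨C3, T3, hC3, hT3, h3⟩ := Om_Rm k (ε := ε / (3 * (A + 1))) (by positivity)
  refine (SmE_of k hu (ε := ε / 3) (by positivity) (F := fun T =>
    (∫ t in T..(2 * T), ‖(fwdDiff (η / Real.log T))^[n] (zr k 0) t‖ ^ 2) - Sf k u T (mn η n))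
    ⟨A * (1 + C3), T3, by positivity, hT3, fun T hT => ?_⟩).mono (by linarith)
  have hT4 : 4 ≤ T := hT3.trans hT
  have hT1 : 1 < T := by linarith
  have hL : 1 ≤ Real.log T := by
    rw [Real.le_log_iff_exp_le (by linarith)]
    have := Real.exp_one_lt_d9
    linarith
  set h : ℝ := η / Real.log T with hh
  have hh0 : 0 ≤ h := by positivity
  have hhn : 0 + n * h ≤ 1 := by
    rw [zero_add, hh]
    calc (n:ℝ) * (η / Real.log T) ≤ n * (η / 1) := by gcongr
      _ = η * n := by ring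
      _ ≤ 1 := hηn
  have hd := f1_dec D hT1.le
  have e0 := hc T hT1.le h hh0 0 le_rfl hhn
  simp only [add_zero] at e0
  set f : ℝ → ℂ := fun t => (wd T t : ℂ) * (fwdDiff h)^[n] (zr k 0) t with hf
  have hfm : Measurable f := (Complex.measurable_ofReal.comp (wd_meas T)).mul (fd_cont hzc h n).measurable
  have hfe : (fun t => ‖f t‖ ^ 2) = (Ioc T (2 * T)).indicator (fun t => ‖(fwdDiff h)^[n] (zr k 0) t‖ ^ 2) := by
    funext t
    simp only [hf]
    by_cases ht : t ∈ Ioc T (2 * T)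
    · rw [wd_mem (by linarith) ht, indicator_of_mem ht]; simp
    · rw [wd_not (by linarith) ht, indicator_of_notMem ht]; simp
  have hfi : Integrable (fun t => ‖f t‖ ^ 2) := by
    rw [hfe]
    exact (integrable_indicator_iff measurableSet_Ioc).2
      ((((fd_cont hzc h n).norm.pow 2).continuousOn.integrableOn_Icc (a := T) (b := 2 * T)).mono_set
        Ioc_subset_Icc_self)
  have hfv : ∫ t, ‖f t‖ ^ 2 = ∫ t in T..(2 * T), ‖(fwdDiff h)^[n] (zr k 0) t‖ ^ 2 := by
    rw [hfe, integral_indicator measurableSet_Ioc, ← intervalIntegral.integral_of_le (by linarith)]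
  have hE := Er_pos k T
  have h4 := sq_abs_diff hfm.aestronglyMeasurable (fd_dec hd h n).cont.aestronglyMeasurable hfi
    (fd_dec hd h n).sq (by positivity : 0 ≤ C * Er k T) e0 hε10 hε11
  rw [hfv, hh, fd_planch k hu hT1 η n, ← hh] at h4
  have h5 := Sf_mass k hu hT1.le (mn_cont η n) (mn_abs η n)
  have h6 : Sf k u T (mn η n) ≤ 2 ^ (2 * n) * ∫ t, ‖f1 (H k u) T t‖ ^ 2 := (le_abs_self _).trans h5
  have hm0 : 0 ≤ ∫ t, ‖f1 (H k u) T t‖ ^ 2 := integral_nonneg fun t => by positivity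
  have hM0 : 0 ≤ M (zr k 0) (2 * T) := (mo_gr k).nn _ (by linarith)
  have hR := Rm_pos (zr k 0) T
  have h7 := h3 T hT
  have h8 : A * Er k T ≤ ε / 3 * M (zr k 0) (2 * T) + A * (1 + C3) * Rm (zr k 0) T := by
    have q1 : Er k T ≤ ε / (3 * (A + 1)) * M (zr k 0) (2 * T) + (1 + C3) * Rm (zr k 0) T := by
      unfold Er; linarith
    have q2 : A * (ε / (3 * (A + 1))) ≤ ε / 3 := by
      rw [mul_div_assoc', div_le_div_iff₀ (by positivity) (by positivity)]
      nlinarith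
    calc A * Er k T ≤ A * (ε / (3 * (A + 1)) * M (zr k 0) (2 * T) + (1 + C3) * Rm (zr k 0) T) := by gcongr
      _ = (A * (ε / (3 * (A + 1)))) * M (zr k 0) (2 * T) + A * (1 + C3) * Rm (zr k 0) T := by ring
      _ ≤ _ := by gcongr
  refine h4.trans ?_
  have h9 : 2 * ε1 * Sf k u T (mn η n) ≤ ε / 3 * ∫ t, ‖f1 (H k u) T t‖ ^ 2 := by
    calc _ ≤ 2 * ε1 * (2 ^ (2 * n) * ∫ t, ‖f1 (H k u) T t‖ ^ 2) := by gcongr
      _ = (2 * ε1 * 2 ^ (2 * n)) * ∫ t, ‖f1 (H k u) T t‖ ^ 2 := by ring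
      _ ≤ _ := by gcongr
  have h10 : (2 + 2 * ε1⁻¹) * (C * Er k T) = A * Er k T := by rw [hA]; ring
  rw [h10]
  linarith

end

end Pool.Agent.K4H66.DM2
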