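import Pool.Agent.K4H66.DM2.Spec

set_option autoImplicit false

/-! P1: Cauchy's estimate in mean square (formalised by helper32). -/

namespace Pool.Agent.K4H66.DM2

open MeasureTheory Set
open scoped ContDiff

/-- Cauchy-Schwarz on an interval -/
lemma sq_integral_le {g : ℝ → ℝ} (hg : Continuous g) {a b : ℝ} (hab : a < b) :
    (∫ t in a..b, g t) ^ 2 ≤ (b - a) * ∫ t in a..b, g t ^ 2 := by
  set I := ∫ t in a..b, g t with hI
  set m := I / (b - a) with hm
  have hba : 0 < b - a := sub_pos.2 hab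
  have h1 : 0 ≤ ∫ t in a..b, (g t - m) ^ 2 :=
    intervalIntegral.integral_nonneg hab.le fun t _ => sq_nonneg _
  have h2 : ∫ t in a..b, (g t - m) ^ 2 = (∫ t in a..b, g t ^ 2) - 2 * m * I + m ^ 2 * (b - a) := by
    have h3 : ∀ t, (g t - m) ^ 2 = g t ^ 2 - (2 * m) * g t + m ^ 2 := fun t => by ring
    simp only [h3]
    rw [intervalIntegral.integral_add, intervalIntegral.integral_sub,
      intervalIntegral.integral_const_mul, intervalIntegral.integral_const, smul_eq_mul, ← hI]
    · ring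
    · exact (hg.pow 2).intervalIntegrable _ _
    · exact (hg.const_mul _).intervalIntegrable _ _
    · exact ((hg.pow 2).sub (hg.const_mul _)).intervalIntegrable _ _
    · exact continuous_const.intervalIntegrable _ _
  rw [h2] at h1
  have h4 : m * (b - a) = I := by rw [hm]; field_simp
  have h5 : (b - a) * ((∫ t in a..b, g t ^ 2) - 2 * m * I + m ^ 2 * (b - a)) =
      (b - a) * (∫ t in a..b, g t ^ 2) - I ^ 2 := by
    rw [← h4]; ring
  have h6 := mul_nonneg hba.le h1
  rw [h5] at h6
  linarith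

theorem P1_holds : P1 := by
  intro f c R n hR hf
  have hcd : DiffContOnCl ℂ f (Metric.ball c R) := by
    refine ⟨fun s hs => (hf s (Metric.ball_subset_closedBall hs)).differentiableWithinAt, ?_⟩
    rw [closure_ball c hR.ne']
    exact fun s hs => (hf s hs).continuousAt.continuousWithinAt
  have hcont : Continuous fun θ : ℝ => f (circleMap c R θ) := by
    rw [continuous_iff_continuousAt]
    intro θ
    exact ContinuousAt.comp (hf _ (circleMap_mem_closedBall c hR.le θ)).continuousAt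
      (continuous_circleMap c R).continuousAt
  have h1 := hcd.circleIntegral_one_div_sub_center_pow_smul hR n
  have h2 : ‖∮ z in C(c, R), (1 / (z - c) ^ (n + 1)) • f z‖ ≤
      R⁻¹ ^ n * ∫ θ in (0:ℝ)..(2 * Real.pi), ‖f (circleMap c R θ)‖ := by
    rw [circleIntegral, ← intervalIntegral.integral_const_mul]
    refine intervalIntegral.norm_integral_le_of_norm_le Real.two_pi_pos.le ?_ ?_
    · refine Filter.Eventually.of_forall fun θ _ => ?_
      rw [norm_smul, norm_smul, deriv_circleMap, norm_mul, Complex.norm_I, mul_one, norm_div,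
        norm_one, norm_pow, circleMap_sub_center, norm_circleMap_zero, abs_of_pos hR, ← mul_assoc]
      refine le_of_eq ?_
      congr 1
      rw [inv_pow, pow_succ]
      field_simp
    · exact ((continuous_const.mul hcont.norm)).intervalIntegrable _ _
  rw [h1, norm_smul, norm_div, norm_mul, norm_mul, Complex.norm_I, mul_one, Complex.norm_natCast,
    Complex.norm_ofNat, Complex.norm_real, Real.norm_of_nonneg Real.pi_pos.le] at h2
  set J := ∫ θ in (0:ℝ)..(2 * Real.pi), ‖f (circleMap c R θ)‖ with hJ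
  have h3 : J ^ 2 ≤ (2 * Real.pi) * ∫ θ in (0:ℝ)..(2 * Real.pi), ‖f (circleMap c R θ)‖ ^ 2 := by
    have := sq_integral_le hcont.norm Real.two_pi_pos
    rwa [sub_zero] at this
  have hfac : (0 : ℝ) < n.factorial := by exact_mod_cast n.factorial_pos
  have h4 : ‖iteratedDeriv n f c‖ ≤ n.factorial * R⁻¹ ^ n * (2 * Real.pi)⁻¹ * J := by
    have h5 : ‖iteratedDeriv n f c‖ = (n.factorial * (2 * Real.pi)⁻¹) *
        (2 * Real.pi / n.factorial * ‖iteratedDeriv n f c‖) := by
      have := Real.pi_pos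
      field_simp
    rw [h5]
    calc (n.factorial * (2 * Real.pi)⁻¹) * (2 * Real.pi / n.factorial * ‖iteratedDeriv n f c‖)
        ≤ (n.factorial * (2 * Real.pi)⁻¹) * (R⁻¹ ^ n * J) := by gcongr
      _ = _ := by ring
  have hJ0 : 0 ≤ J := intervalIntegral.integral_nonneg Real.two_pi_pos.le fun _ _ => norm_nonneg _
  have h6 : ‖iteratedDeriv n f c‖ ^ 2 ≤ (n.factorial * R⁻¹ ^ n * (2 * Real.pi)⁻¹ * J) ^ 2 := by
    gcongr
  refine h6.trans ?_
  have h7 : (n.factorial * R⁻¹ ^ n * (2 * Real.pi)⁻¹ * J) ^ 2 =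
      (n.factorial : ℝ) ^ 2 * (R⁻¹) ^ (2 * n) * (2 * Real.pi)⁻¹ * ((2 * Real.pi)⁻¹ * J ^ 2) := by
    ring
  rw [h7]
  refine mul_le_mul_of_nonneg_left ?_ (by positivity)
  have h8 : (2 * Real.pi)⁻¹ * J ^ 2 ≤ (2 * Real.pi)⁻¹ * ((2 * Real.pi) *
      ∫ θ in (0:ℝ)..(2 * Real.pi), ‖f (circleMap c R θ)‖ ^ 2) := by gcongr
  refine h8.trans (le_of_eq ?_)
  rw [← mul_assoc, inv_mul_cancel₀ (by positivity), one_mul]
  rfl

end Pool.Agent.K4H66.DM2
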