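import Pool.Agent.K4H66.DM2.B
import Pool.Agent.K4H66.DM2.P1

set_option autoImplicit false

/-! Mean squares of the derivatives of `ζ^k`. -/

namespace Pool.Agent.K4H66.DM2

open Complex MeasureTheory Filter Topology Set Pool.Agent.TH535.SM Pool.Agent.K4H66.OL Pool.Agent.R446.KR
  Pool.Agent.K4H66.HL Pool.Agent.K4H66.LP
open scoped ComplexConjugate ContDiff FourierTransform ENNReal

noncomputable section

variable {k : ℕ} {c : ℝ}

/-- `ζ(s)^k` -/
def zc (k : ℕ) (s : ℂ) : ℂ := riemannZeta s ^ k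

lemma zc_diff (k : ℕ) {s : ℂ} (hs : s ≠ 1) : DifferentiableAt ℂ (zc k) s := (differentiableAt_riemannZeta hs).pow k

lemma zc_an (k : ℕ) {s : ℂ} (hs : s ≠ 1) : AnalyticAt ℂ (zc k) s := by
  have h : DifferentiableOn ℂ (zc k) ({1}ᶜ : Set ℂ) := fun z hz => (zc_diff k hz).differentiableWithinAt
  exact h.analyticAt (isOpen_compl_singleton.mem_nhds hs)

lemma zid_an (k n : ℕ) {s : ℂ} (hs : s ≠ 1) : AnalyticAt ℂ (iteratedDeriv n (zc k)) s := by
  rw [iteratedDeriv_eq_iterate]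
  exact (zc_an k hs).iterated_deriv n

lemma zr_zc (k : ℕ) (r t : ℝ) : zr k r t = zc k (((1 / 2 + r : ℝ) : ℂ) + t * I) := rfl

lemma lne (t : ℝ) : (1 / 2 : ℂ) + (t : ℂ) * I ≠ 1 := by
  intro h
  have := congrArg Complex.re h
  simp at this

lemma line_deriv (k n : ℕ) : iteratedDeriv n (zr k 0) =
    fun t : ℝ => I ^ n * iteratedDeriv n (zc k) (1 / 2 + (t : ℂ) * I) := by
  induction n with
  | zero =>
    funext t
    rw [iteratedDeriv_zero, iteratedDeriv_zero, pow_zero, one_mul, zr_zc]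
    congr 2
    push_cast; ring
  | succ n ih =>
    funext t
    rw [iteratedDeriv_succ, ih]
    have h1 : HasDerivAt (iteratedDeriv n (zc k)) (iteratedDeriv (n + 1) (zc k) (1 / 2 + (t : ℂ) * I))
        (1 / 2 + (t : ℂ) * I) := by
      rw [iteratedDeriv_succ]
      exact (zid_an k n (lne t)).differentiableAt.hasDerivAt
    have h2 : HasDerivAt (fun w : ℂ => 1 / 2 + w * I) I (t : ℂ) := by
      have := ((hasDerivAt_id (t : ℂ)).mul_const I).const_add (1 / 2)
      simpa using this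
    have h3 : HasDerivAt (fun w : ℂ => iteratedDeriv n (zc k) (1 / 2 + w * I))
        (iteratedDeriv (n + 1) (zc k) (1 / 2 + (t : ℂ) * I) * I) (t : ℂ) :=
      HasDerivAt.comp (h₂ := iteratedDeriv n (zc k)) (h := fun w : ℂ => 1 / 2 + w * I) (t : ℂ) h1 h2
    have h4 := (h3.const_mul (I ^ n)).comp_ofReal
    rw [h4.deriv]
    ring

lemma zr_smooth (k : ℕ) : ContDiff ℝ ∞ (zr k 0) := by
  rw [contDiff_iff_contDiffAt]
  intro t
  have e : zr k 0 = zc k ∘ (fun t : ℝ => (1 / 2 : ℂ) + (t : ℂ) * I) := by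
    funext t
    rw [zr_zc, Function.comp]
    congr 2
    push_cast; ring
  rw [e]
  have h1 : ContDiffAt ℝ ∞ (zc k) ((1 / 2 : ℂ) + (t : ℂ) * I) :=
    ((zc_an k (lne t)).contDiffAt (n := ∞)).restrict_scalars ℝ
  refine h1.comp t ?_
  have h2 : ContDiff ℝ ∞ (fun t : ℝ => (1 / 2 : ℂ) + (t : ℂ) * I) :=
    contDiff_const.add (Complex.ofRealCLM.contDiff.mul contDiff_const)
  exact h2.contDiffAt

/-- the `n`-th derivative moment -/
def V (k n : ℕ) (T : ℝ) : ℝ := ∫ t in (0:ℝ)..T, ‖iteratedDeriv n (zr k 0) t‖ ^ 2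

lemma id_cont (k n : ℕ) : Continuous (iteratedDeriv n (zr k 0)) :=
  (zr_smooth k).continuous_iteratedDeriv n (by exact_mod_cast le_top)

lemma V_int (k n : ℕ) (a b : ℝ) : IntervalIntegrable (fun t => ‖iteratedDeriv n (zr k 0) t‖ ^ 2) volume a b :=
  ((id_cont k n).norm.pow 2).intervalIntegrable a b

lemma V_sub (k n : ℕ) (a b : ℝ) : V k n b - V k n a = ∫ t in a..b, ‖iteratedDeriv n (zr k 0) t‖ ^ 2 :=
  intervalIntegral.integral_interval_sub_left (V_int k n _ _) (V_int k n _ _)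

lemma V_mono (k n : ℕ) : Monotone (V k n) := by
  intro a b hab
  have h := V_sub k n a b
  have h2 : 0 ≤ ∫ t in a..b, ‖iteratedDeriv n (zr k 0) t‖ ^ 2 :=
    intervalIntegral.integral_nonneg hab fun t _ => by positivity
  linarith

lemma V_zero (k : ℕ) (T : ℝ) : V k 0 T = M (zr k 0) T := by
  unfold V M
  rw [iteratedDeriv_zero]

lemma fub {F : ℝ × ℝ → ℝ} (hF : Continuous F) {T B : ℝ} (hT : 0 ≤ T)
    (h : ∀ θ : ℝ, ∫ t in (0:ℝ)..T, F (t, θ) ≤ B) :
    ∫ t in (0:ℝ)..T, ∫ θ in (0:ℝ)..(2 * Real.pi), F (t, θ) ≤ 2 * Real.pi * B := by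
  rw [intervalIntegral_intervalIntegral_swap (F := fun t θ => F (t, θ))]
  · calc _ ≤ ∫ θ in (0:ℝ)..(2 * Real.pi), B := by
          refine intervalIntegral.integral_mono_on (by positivity) ?_ intervalIntegrable_const fun θ _ => h θ
          refine Continuous.intervalIntegrable ?_ _ _
          exact intervalIntegral.continuous_parametric_intervalIntegral_of_continuous'
            (f := fun θ t => F (t, θ)) (hF.comp continuous_swap) 0 T
      _ = _ := by rw [intervalIntegral.integral_const, smul_eq_mul, sub_zero]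
  · refine (hF.continuousOn.integrableOn_compact (isCompact_Icc (a := ((0:ℝ), (0:ℝ))) (b := (T, 2 * Real.pi)))).mono_set ?_
    rw [uIoc_of_le hT, uIoc_of_le (by positivity), ← Icc_prod_Icc]
    exact prod_mono Ioc_subset_Icc_self Ioc_subset_Icc_self

lemma fub_cont {F : ℝ × ℝ → ℝ} (hF : Continuous F) : Continuous (fun t : ℝ => ∫ θ in (0:ℝ)..(2 * Real.pi), F (t, θ)) :=
  intervalIntegral.continuous_parametric_intervalIntegral_of_continuous' (f := fun t θ => F (t, θ)) hF 0 (2 * Real.pi)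

/-- Cauchy's estimate, integrated over an interval -/
theorem V_cauchy (k n : ℕ) {R T B : ℝ} (hR : 0 < R) (hR4 : R ≤ 1 / 4) (hT : 0 ≤ T)
    (hB : ∀ r : ℝ, |r| ≤ R → ∫ t in (-1:ℝ)..(T + 1), ‖zr k r t‖ ^ 2 ≤ B) :
    V k n T ≤ (n.factorial : ℝ) ^ 2 * (R⁻¹) ^ (2 * n) * B := by
  have hpt : ∀ t θ : ℝ, zc k ((1 / 2 + (t : ℂ) * I) + R * cexp (θ * I)) = zr k (R * Real.cos θ) (t + R * Real.sin θ) := by
    intro t θ
    rw [zr_zc]
    congr 1
    rw [Complex.exp_mul_I, ← Complex.ofReal_cos, ← Complex.ofReal_sin]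
    push_cast
    ring
  have h1 : ∀ t : ℝ, ‖iteratedDeriv n (zr k 0) t‖ ^ 2 ≤ (n.factorial : ℝ) ^ 2 * (R⁻¹) ^ (2 * n) * (2 * Real.pi)⁻¹ *
      ∫ θ in (0:ℝ)..(2 * Real.pi), ‖zr k (R * Real.cos θ) (t + R * Real.sin θ)‖ ^ 2 := by
    intro t
    rw [line_deriv]
    beta_reduce
    rw [norm_mul, norm_pow, Complex.norm_I, one_pow, one_mul]
    have := P1_holds (zc k) (1 / 2 + (t : ℂ) * I) R n hR (fun s hs => zc_diff k (by
      intro h
      rw [h, Metric.mem_closedBall, dist_eq_norm] at hs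
      have h2 := (Complex.abs_re_le_norm _).trans hs
      simp at h2
      rw [abs_le] at h2
      linarith [h2.2]))
    simp_rw [hpt] at this
    exact this
  have hcos : ∀ θ : ℝ, |R * Real.cos θ| ≤ R := by
    intro θ
    rw [abs_mul, abs_of_pos hR]
    exact mul_le_of_le_one_right hR.le (Real.abs_cos_le_one θ)
  have hsin : ∀ θ : ℝ, |R * Real.sin θ| ≤ R := by
    intro θ
    rw [abs_mul, abs_of_pos hR]
    exact mul_le_of_le_one_right hR.le (Real.abs_sin_le_one θ)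
  have hjc : Continuous (fun p : ℝ × ℝ => ‖zr k (R * Real.cos p.2) (p.1 + R * Real.sin p.2)‖ ^ 2) := by
    refine Continuous.pow (Continuous.norm ?_) 2
    rw [continuous_iff_continuousAt]
    intro p
    have hne : (((1 / 2 + R * Real.cos p.2 : ℝ) : ℂ) + ((p.1 + R * Real.sin p.2 : ℝ) : ℂ) * I) ≠ 1 :=
      ln_ne ((hcos p.2).trans hR4) _
    have h2 : ContinuousAt (zc k) (((1 / 2 + R * Real.cos p.2 : ℝ) : ℂ) + ((p.1 + R * Real.sin p.2 : ℝ) : ℂ) * I) :=
      (zc_diff k hne).continuousAt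
    have h3 : ContinuousAt (fun p : ℝ × ℝ => (((1 / 2 + R * Real.cos p.2 : ℝ) : ℂ) +
        ((p.1 + R * Real.sin p.2 : ℝ) : ℂ) * I)) p := by
      have : Continuous (fun p : ℝ × ℝ => (((1 / 2 + R * Real.cos p.2 : ℝ) : ℂ) +
        ((p.1 + R * Real.sin p.2 : ℝ) : ℂ) * I)) := by fun_prop
      exact this.continuousAt
    exact ContinuousAt.comp (g := zc k) h2 h3
  obtain ⟨F, hF⟩ : ∃ F : ℝ × ℝ → ℝ, F = fun p => ‖zr k (R * Real.cos p.2) (p.1 + R * Real.sin p.2)‖ ^ 2 := ⟨_, rfl⟩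
  rw [← hF] at hjc
  have hFv : ∀ t θ : ℝ, ‖zr k (R * Real.cos θ) (t + R * Real.sin θ)‖ ^ 2 = F (t, θ) := by
    intro t θ
    rw [hF]
  simp_rw [hFv] at h1
  have h2 : V k n T ≤ ∫ t in (0:ℝ)..T, (n.factorial : ℝ) ^ 2 * (R⁻¹) ^ (2 * n) * (2 * Real.pi)⁻¹ *
      ∫ θ in (0:ℝ)..(2 * Real.pi), F (t, θ) :=
    intervalIntegral.integral_mono_on hT (V_int k n 0 T)
      ((continuous_const.mul (fub_cont hjc)).intervalIntegrable _ _) fun t _ => h1 t
  rw [intervalIntegral.integral_const_mul] at h2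
  refine h2.trans ?_
  have h3 : ∀ θ : ℝ, ∫ t in (0:ℝ)..T, F (t, θ) ≤ B := by
    intro θ
    simp_rw [← hFv]
    have hs := abs_le.1 (hsin θ)
    rw [intervalIntegral.integral_comp_add_right (fun t => ‖zr k (R * Real.cos θ) t‖ ^ 2)]
    refine le_trans ?_ (hB _ (hcos θ))
    have hc := (zr_cont k ((hcos θ).trans hR4)).norm.pow 2
    refine intervalIntegral.integral_mono_interval (by linarith) (by linarith) (by linarith)
      (Eventually.of_forall fun t => by positivity) (hc.intervalIntegrable _ _)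
  have h4 := fub hjc hT h3
  calc _ ≤ (n.factorial : ℝ) ^ 2 * (R⁻¹) ^ (2 * n) * (2 * Real.pi)⁻¹ * (2 * Real.pi * B) := by gcongr
    _ = _ := by field_simp

end

end Pool.Agent.K4H66.DM2
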