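import Mathlib
import Pool.Agent.K4H66.DM2.Spec

/-! Finite differences against derivatives in mean square. (Formalised by helper20.) -/

set_option autoImplicit false

namespace Pool.Agent.K4H66.DM2

open MeasureTheory Set
open scoped ContDiff

lemma cs_int {u : ℝ → ℂ} (hu : Continuous u) {h : ℝ} (hh : 0 < h) :
    ‖∫ s in (0:ℝ)..h, u s‖ ^ 2 ≤ h * ∫ s in (0:ℝ)..h, ‖u s‖ ^ 2 := by
  have hv : Continuous fun s => ‖u s‖ := hu.norm
  obtain ⟨A, hA⟩ : ∃ A : ℝ, A = ∫ s in (0:ℝ)..h, ‖u s‖ := ⟨_, rfl⟩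
  have h1 : ‖∫ s in (0:ℝ)..h, u s‖ ≤ A := by
    rw [hA]; exact intervalIntegral.norm_integral_le_integral_norm hh.le
  have h2 : 0 ≤ ∫ s in (0:ℝ)..h, (‖u s‖ - A / h) ^ 2 :=
    intervalIntegral.integral_nonneg hh.le fun s _ => sq_nonneg _
  have h3 : ∫ s in (0:ℝ)..h, (‖u s‖ - A / h) ^ 2 =
      (∫ s in (0:ℝ)..h, ‖u s‖ ^ 2) - 2 * (A / h) * A + (A / h) ^ 2 * h := by
    have e : ∀ s, (‖u s‖ - A / h) ^ 2 = ‖u s‖ ^ 2 - 2 * (A / h) * ‖u s‖ + (A / h) ^ 2 := fun s => by ring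
    simp only [e]
    have i1 : IntervalIntegrable (fun s => ‖u s‖ ^ 2) volume 0 h := (hv.pow 2).intervalIntegrable _ _
    have i2 : IntervalIntegrable (fun s => 2 * (A / h) * ‖u s‖) volume 0 h :=
      (continuous_const.mul hv).intervalIntegrable _ _
    have i3 : IntervalIntegrable (fun _ : ℝ => (A / h) ^ 2) volume 0 h :=
      continuous_const.intervalIntegrable _ _
    rw [intervalIntegral.integral_add (i1.sub i2) i3, intervalIntegral.integral_sub i1 i2,
      intervalIntegral.integral_const_mul, intervalIntegral.integral_const, ← hA, sub_zero, smul_eq_mul]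
    ring
  have h4 : A ^ 2 ≤ h * ∫ s in (0:ℝ)..h, ‖u s‖ ^ 2 := by
    rw [h3] at h2
    have e : -(2 * (A / h) * A) + (A / h) ^ 2 * h = -(A ^ 2 / h) := by
      field_simp
      ring
    have h5 : A ^ 2 / h ≤ ∫ s in (0:ℝ)..h, ‖u s‖ ^ 2 := by linarith
    rwa [div_le_iff₀ hh, mul_comm] at h5
  have hA0 : 0 ≤ ‖∫ s in (0:ℝ)..h, u s‖ := norm_nonneg _
  calc ‖∫ s in (0:ℝ)..h, u s‖ ^ 2 ≤ A ^ 2 := pow_le_pow_left₀ hA0 h1 2
    _ ≤ _ := h4

/-- Averages. -/
lemma avg {K : ℝ → ℝ → ℂ} (hK : Continuous (Function.uncurry K)) {a b h B : ℝ} (hab : a ≤ b) (hh : 0 < h)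
    (hB : ∀ s ∈ Icc (0:ℝ) h, ∫ t in a..b, ‖K t s‖ ^ 2 ≤ B) :
    ∫ t in a..b, ‖(h⁻¹ : ℝ) • ∫ s in (0:ℝ)..h, K t s‖ ^ 2 ≤ B := by
  have hKt : ∀ t, Continuous fun s => K t s := fun t => hK.comp (by fun_prop : Continuous fun s => (t, s))
  have hKs : ∀ s, Continuous fun t => K t s := fun s => hK.comp (by fun_prop : Continuous fun t => (t, s))
  have hc2 : Continuous (Function.uncurry fun t s => ‖K t s‖ ^ 2) := hK.norm.pow 2
  have hJ : Continuous fun t => ∫ s in (0:ℝ)..h, ‖K t s‖ ^ 2 :=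
    intervalIntegral.continuous_parametric_intervalIntegral_of_continuous' hc2 0 h
  have hJ' : Continuous fun t => ∫ s in (0:ℝ)..h, K t s :=
    intervalIntegral.continuous_parametric_intervalIntegral_of_continuous' hK 0 h
  have h1 : ∫ t in a..b, ‖(h⁻¹ : ℝ) • ∫ s in (0:ℝ)..h, K t s‖ ^ 2 ≤
      ∫ t in a..b, h⁻¹ * ∫ s in (0:ℝ)..h, ‖K t s‖ ^ 2 := by
    apply intervalIntegral.integral_mono_on hab
    · exact ((hJ'.const_smul (h⁻¹ : ℝ)).norm.pow 2).intervalIntegrable _ _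
    · exact (continuous_const.mul hJ).intervalIntegrable _ _
    · intro t _
      have h2 := cs_int (hKt t) hh
      rw [norm_smul, mul_pow, Real.norm_eq_abs, sq_abs]
      calc h⁻¹ ^ 2 * ‖∫ s in (0:ℝ)..h, K t s‖ ^ 2 ≤ h⁻¹ ^ 2 * (h * ∫ s in (0:ℝ)..h, ‖K t s‖ ^ 2) :=
            mul_le_mul_of_nonneg_left h2 (by positivity)
        _ = _ := by field_simp
  refine h1.trans ?_
  rw [intervalIntegral.integral_const_mul, intervalIntegral_intervalIntegral_swap
    (F := fun t s => ‖K t s‖ ^ 2) ((hc2.continuousOn.integrableOn_compact (isCompact_uIcc.prod isCompact_uIcc)).mono_set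
      (prod_mono uIoc_subset_uIcc uIoc_subset_uIcc))]
  have hJ2 : Continuous fun s => ∫ t in a..b, ‖K t s‖ ^ 2 :=
    intervalIntegral.continuous_parametric_intervalIntegral_of_continuous'
      (f := fun s t => ‖K t s‖ ^ 2) (hc2.comp continuous_swap) a b
  have h3 : ∫ s in (0:ℝ)..h, ∫ t in a..b, ‖K t s‖ ^ 2 ≤ ∫ _ in (0:ℝ)..h, B :=
    intervalIntegral.integral_mono_on hh.le (hJ2.intervalIntegrable _ _) (continuous_const.intervalIntegrable _ _) hB
  rw [intervalIntegral.integral_const, sub_zero, smul_eq_mul] at h3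
  calc h⁻¹ * ∫ s in (0:ℝ)..h, ∫ t in a..b, ‖K t s‖ ^ 2 ≤ h⁻¹ * (h * B) :=
        mul_le_mul_of_nonneg_left h3 (by positivity)
    _ = B := by field_simp

lemma shift_le {g : ℝ → ℂ} (hg : Continuous g) {a b s h : ℝ} (hab : a ≤ b) (hs : s ∈ Icc (0:ℝ) h) :
    ∫ t in a..b, ‖g (t + s)‖ ^ 2 ≤ ∫ t in a..(b + h), ‖g t‖ ^ 2 := by
  rw [intervalIntegral.integral_comp_add_right (fun t => ‖g t‖ ^ 2) s]
  exact intervalIntegral.integral_mono_interval (by linarith [hs.1]) (by linarith) (by linarith [hs.2])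
    (Filter.Eventually.of_forall fun t => by positivity) ((hg.norm.pow 2).intervalIntegrable _ _)

lemma diff_int {g : ℝ → ℂ} (hg : ContDiff ℝ ∞ g) (t h : ℝ) :
    g (t + h) - g t = ∫ s in (0:ℝ)..h, deriv g (t + s) := by
  have hd : Differentiable ℝ g := hg.differentiable (by simp)
  have hc : Continuous (deriv g) := hg.continuous_deriv (by simp)
  rw [intervalIntegral.integral_comp_add_left (fun s => deriv g s) t, add_zero,
    intervalIntegral.integral_deriv_eq_sub (fun x _ => hd x) (hc.intervalIntegrable _ _)]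

/-- (i) -/
lemma step_i {g : ℝ → ℂ} (hg : ContDiff ℝ ∞ g) {a b h : ℝ} (hab : a ≤ b) (hh : 0 < h) :
    ∫ t in a..b, ‖(h⁻¹ : ℝ) • (g (t + h) - g t)‖ ^ 2 ≤ ∫ t in a..(b + h), ‖deriv g t‖ ^ 2 := by
  have hc : Continuous (deriv g) := hg.continuous_deriv (by simp)
  have e : ∀ t, (h⁻¹ : ℝ) • (g (t + h) - g t) = (h⁻¹ : ℝ) • ∫ s in (0:ℝ)..h, deriv g (t + s) := fun t => by
    rw [diff_int hg]
  simp only [e]
  refine avg (K := fun t s => deriv g (t + s)) ?_ hab hh fun s hs => shift_le hc hab hs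
  exact hc.comp (by fun_prop : Continuous fun p : ℝ × ℝ => p.1 + p.2)

/-- (ii) -/
lemma step_ii {g : ℝ → ℂ} (hg : ContDiff ℝ ∞ g) {a b h : ℝ} (hab : a ≤ b) (hh : 0 < h) :
    ∫ t in a..b, ‖(h⁻¹ : ℝ) • (g (t + h) - g t) - deriv g t‖ ^ 2 ≤
      h ^ 2 * ∫ t in a..(b + h), ‖deriv (deriv g) t‖ ^ 2 := by
  have hg1 : ContDiff ℝ ∞ (deriv g) := by
    have := (contDiff_infty_iff_deriv (f := g)).1 hg
    exact this.2
  have hc : Continuous (deriv g) := hg1.continuous
  have hc2 : Continuous (deriv (deriv g)) := hg1.continuous_deriv (by simp)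
  have e : ∀ t, (h⁻¹ : ℝ) • (g (t + h) - g t) - deriv g t =
      (h⁻¹ : ℝ) • ∫ s in (0:ℝ)..h, (deriv g (t + s) - deriv g t) := fun t => by
    have i1 : IntervalIntegrable (fun s => deriv g (t + s)) volume 0 h :=
      (hc.comp (by fun_prop : Continuous fun s : ℝ => t + s)).intervalIntegrable _ _
    have i2 : IntervalIntegrable (fun _ : ℝ => deriv g t) volume 0 h :=
      continuous_const.intervalIntegrable _ _
    rw [diff_int hg, intervalIntegral.integral_sub i1 i2, intervalIntegral.integral_const, sub_zero, smul_sub,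
      smul_smul, inv_mul_cancel₀ hh.ne', one_smul]
  simp only [e]
  refine avg (K := fun t s => deriv g (t + s) - deriv g t) ?_ hab hh fun s hs => ?_
  · exact (hc.comp (by fun_prop : Continuous fun p : ℝ × ℝ => p.1 + p.2)).sub (hc.comp continuous_fst)
  · have hI : 0 ≤ ∫ t in a..(b + h), ‖deriv (deriv g) t‖ ^ 2 :=
      intervalIntegral.integral_nonneg (by linarith) fun t _ => by positivity
    rcases eq_or_lt_of_le hs.1 with h0 | h0
    · rw [← h0]
      simp only [add_zero, sub_self, norm_zero]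
      rw [intervalIntegral.integral_const]
      simp only [ne_eq, OfNat.ofNat_ne_zero, not_false_eq_true, zero_pow, smul_zero]
      positivity
    · have h1 := step_i hg1 hab h0
      have e2 : ∀ t, ‖deriv g (t + s) - deriv g t‖ ^ 2 = s ^ 2 * ‖(s⁻¹ : ℝ) • (deriv g (t + s) - deriv g t)‖ ^ 2 := by
        intro t
        rw [norm_smul, mul_pow, Real.norm_eq_abs, sq_abs, ← mul_assoc, ← mul_pow, mul_inv_cancel₀ h0.ne', one_pow,
          one_mul]
      simp only [e2]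
      rw [intervalIntegral.integral_const_mul]
      have h2 : ∫ t in a..(b + s), ‖deriv (deriv g) t‖ ^ 2 ≤ ∫ t in a..(b + h), ‖deriv (deriv g) t‖ ^ 2 :=
        intervalIntegral.integral_mono_interval le_rfl (by linarith) (by linarith [hs.2])
          (Filter.Eventually.of_forall fun t => by positivity) ((hc2.norm.pow 2).intervalIntegrable _ _)
      exact mul_le_mul (pow_le_pow_left₀ hs.1 hs.2 2) (h1.trans h2)
        (intervalIntegral.integral_nonneg hab fun t _ => by positivity) (by positivity)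

lemma fwd_contDiff {f : ℝ → ℂ} (hf : ContDiff ℝ ∞ f) (h : ℝ) : ContDiff ℝ ∞ (fwdDiff h f) := by
  unfold fwdDiff
  exact (hf.comp (contDiff_id.add contDiff_const)).sub hf

lemma fwd_deriv {f : ℝ → ℂ} (hf : ContDiff ℝ ∞ f) (h : ℝ) : deriv (fwdDiff h f) = fwdDiff h (deriv f) := by
  have hd : Differentiable ℝ f := hf.differentiable (by simp)
  have hd' : Differentiable ℝ fun n => f (n + h) := hd.comp (by fun_prop : Differentiable ℝ fun n : ℝ => n + h)
  funext t
  unfold fwdDiff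
  rw [deriv_fun_sub (hd' t) (hd t), deriv_comp_add_const]

lemma fwd_iter_contDiff {f : ℝ → ℂ} (hf : ContDiff ℝ ∞ f) (h : ℝ) (n : ℕ) :
    ContDiff ℝ ∞ ((fwdDiff h)^[n] f) := by
  induction n with
  | zero => exact hf
  | succ n ih =>
    rw [Function.iterate_succ_apply']
    exact fwd_contDiff ih h

lemma fwd_iter_deriv {f : ℝ → ℂ} (hf : ContDiff ℝ ∞ f) (h : ℝ) (n : ℕ) :
    deriv ((fwdDiff h)^[n] f) = (fwdDiff h)^[n] (deriv f) := by
  induction n with
  | zero => rfl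
  | succ n ih =>
    rw [Function.iterate_succ_apply', Function.iterate_succ_apply', fwd_deriv (fwd_iter_contDiff hf h n), ih]

lemma iter_contDiff {f : ℝ → ℂ} (hf : ContDiff ℝ ∞ f) (n : ℕ) : ContDiff ℝ ∞ (iteratedDeriv n f) := by
  induction n with
  | zero => rwa [iteratedDeriv_zero]
  | succ n ih =>
    rw [iteratedDeriv_succ]
    exact ((contDiff_infty_iff_deriv (f := iteratedDeriv n f)).1 ih).2

theorem P2_holds : P2 := by
  intro n
  induction n with
  | zero =>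
    refine ⟨0, le_rfl, fun f hf a b h hab hh => ?_⟩
    simp [iteratedDeriv_zero]
  | succ n ih =>
    obtain ⟨C, hC, H⟩ := ih
    refine ⟨2 * C + 2, by positivity, fun f hf a b h hab hh => ?_⟩
    have hf1 : ContDiff ℝ ∞ (deriv f) := ((contDiff_infty_iff_deriv (f := f)).1 hf).2
    obtain ⟨φ, hφ⟩ : ∃ φ, φ = iteratedDeriv n f := ⟨_, rfl⟩
    have hφc : ContDiff ℝ ∞ φ := by rw [hφ]; exact iter_contDiff hf n
    obtain ⟨E, hE⟩ : ∃ E : ℝ → ℂ, E = fun t => (h⁻¹ : ℝ) ^ n • (fwdDiff h)^[n] f t - φ t := ⟨_, rfl⟩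
    have hEc : ContDiff ℝ ∞ E := by
      rw [hE]; exact ((fwd_iter_contDiff hf h n).const_smul _).sub hφc
    have hEd : deriv E = fun t => (h⁻¹ : ℝ) ^ n • (fwdDiff h)^[n] (deriv f) t - iteratedDeriv n (deriv f) t := by
      funext t
      have hF : DifferentiableAt ℝ ((fwdDiff h)^[n] f) t := (fwd_iter_contDiff hf h n).differentiable (by simp) t
      have e1 : HasDerivAt (fun y => (h⁻¹ : ℝ) ^ n • (fwdDiff h)^[n] f y)
          ((h⁻¹ : ℝ) ^ n • deriv ((fwdDiff h)^[n] f) t) t := HasDerivAt.const_smul ((h⁻¹ : ℝ) ^ n) hF.hasDerivAt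
      have e2 : HasDerivAt φ (deriv φ t) t := (hφc.differentiable (by simp) t).hasDerivAt
      have e3 : deriv (fun t => (h⁻¹ : ℝ) ^ n • (fwdDiff h)^[n] f t - φ t) t =
          (h⁻¹ : ℝ) ^ n • deriv ((fwdDiff h)^[n] f) t - deriv φ t := (e1.sub e2).deriv
      rw [hE, e3, fwd_iter_deriv hf h n, hφ, ← iteratedDeriv_succ, iteratedDeriv_succ']
    have hφd : deriv φ = iteratedDeriv (n + 1) f := by rw [hφ, iteratedDeriv_succ]
    have hφdd : deriv (deriv φ) = iteratedDeriv (n + 2) f := by rw [hφd, ← iteratedDeriv_succ]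
    have hdec : ∀ t, (h⁻¹ : ℝ) ^ (n + 1) • (fwdDiff h)^[n + 1] f t - iteratedDeriv (n + 1) f t =
        (h⁻¹ : ℝ) • (E (t + h) - E t) + ((h⁻¹ : ℝ) • (φ (t + h) - φ t) - deriv φ t) := by
      intro t
      rw [hφd, hE, Function.iterate_succ_apply']
      simp only [fwdDiff]
      rw [pow_succ']
      simp only [smul_sub, mul_smul]
      abel
    have hE1 : Continuous E := hEc.continuous
    have hφ1 : Continuous φ := hφc.continuous
    have hφ2 : Continuous (deriv φ) := hφc.continuous_deriv (by simp)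
    have hu : Continuous fun t => (h⁻¹ : ℝ) • (E (t + h) - E t) :=
      ((hE1.comp (continuous_id.add continuous_const)).sub hE1).const_smul (h⁻¹ : ℝ)
    have hv : Continuous fun t => (h⁻¹ : ℝ) • (φ (t + h) - φ t) - deriv φ t :=
      (((hφ1.comp (continuous_id.add continuous_const)).sub hφ1).const_smul (h⁻¹ : ℝ)).sub hφ2
    have h1 : ∫ t in a..b, ‖(h⁻¹ : ℝ) • (E (t + h) - E t)‖ ^ 2 ≤
        C * h ^ 2 * ∫ t in a..(b + ((n + 1 : ℕ) : ℝ) * h), ‖iteratedDeriv (n + 2) f t‖ ^ 2 := by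
      refine (step_i hEc hab hh).trans ?_
      rw [hEd]
      have h2 := H (deriv f) hf1 a (b + h) h (by linarith) hh
      have e5 : iteratedDeriv (n + 1) (deriv f) = iteratedDeriv (n + 2) f := iteratedDeriv_succ'.symm
      rw [e5] at h2
      refine h2.trans (le_of_eq ?_)
      congr 2
      push_cast
      ring
    have h2 : ∫ t in a..b, ‖(h⁻¹ : ℝ) • (φ (t + h) - φ t) - deriv φ t‖ ^ 2 ≤
        h ^ 2 * ∫ t in a..(b + ((n + 1 : ℕ) : ℝ) * h), ‖iteratedDeriv (n + 2) f t‖ ^ 2 := by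
      refine (step_ii hφc hab hh).trans ?_
      rw [hφdd]
      apply mul_le_mul_of_nonneg_left _ (by positivity)
      have hn : 0 ≤ (n : ℝ) * h := by positivity
      refine intervalIntegral.integral_mono_interval le_rfl (by linarith) ?_
        (Filter.Eventually.of_forall fun t => by positivity)
        (((iter_contDiff hf (n + 2)).continuous.norm.pow 2).intervalIntegrable _ _)
      push_cast
      linarith
    have i0 : IntervalIntegrable (fun t => ‖(h⁻¹ : ℝ) • (E (t + h) - E t) +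
        ((h⁻¹ : ℝ) • (φ (t + h) - φ t) - deriv φ t)‖ ^ 2) volume a b :=
      ((hu.add hv).norm.pow 2).intervalIntegrable _ _
    have i1 : IntervalIntegrable (fun t => 2 * ‖(h⁻¹ : ℝ) • (E (t + h) - E t)‖ ^ 2) volume a b :=
      (continuous_const.mul (hu.norm.pow 2)).intervalIntegrable _ _
    have i2 : IntervalIntegrable (fun t => 2 * ‖(h⁻¹ : ℝ) • (φ (t + h) - φ t) - deriv φ t‖ ^ 2) volume a b :=
      (continuous_const.mul (hv.norm.pow 2)).intervalIntegrable _ _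
    have h3 : ∫ t in a..b, ‖(h⁻¹ : ℝ) ^ (n + 1) • (fwdDiff h)^[n + 1] f t - iteratedDeriv (n + 1) f t‖ ^ 2 ≤
        ∫ t in a..b, (2 * ‖(h⁻¹ : ℝ) • (E (t + h) - E t)‖ ^ 2 +
          2 * ‖(h⁻¹ : ℝ) • (φ (t + h) - φ t) - deriv φ t‖ ^ 2) := by
      simp only [hdec]
      refine intervalIntegral.integral_mono_on hab i0 (i1.add i2) fun t _ => ?_
      obtain ⟨u, hu'⟩ : ∃ u, u = (h⁻¹ : ℝ) • (E (t + h) - E t) := ⟨_, rfl⟩
      obtain ⟨v, hv'⟩ : ∃ v, v = (h⁻¹ : ℝ) • (φ (t + h) - φ t) - deriv φ t := ⟨_, rfl⟩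
      rw [← hu', ← hv']
      have h5 := pow_le_pow_left₀ (norm_nonneg _) (norm_add_le u v) 2
      nlinarith [sq_nonneg (‖u‖ - ‖v‖)]
    refine h3.trans ?_
    rw [intervalIntegral.integral_add i1 i2, intervalIntegral.integral_const_mul,
      intervalIntegral.integral_const_mul]
    have e : (2 * C + 2) * h ^ 2 * ∫ t in a..(b + ((n + 1 : ℕ) : ℝ) * h), ‖iteratedDeriv (n + 1 + 1) f t‖ ^ 2 =
        2 * (C * h ^ 2 * ∫ t in a..(b + ((n + 1 : ℕ) : ℝ) * h), ‖iteratedDeriv (n + 2) f t‖ ^ 2) +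
        2 * (h ^ 2 * ∫ t in a..(b + ((n + 1 : ℕ) : ℝ) * h), ‖iteratedDeriv (n + 2) f t‖ ^ 2) := by ring
    rw [e]
    linarith

end Pool.Agent.K4H66.DM2
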