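import Pool.Agent.K4H66.DM2.Spec
import Pool.Agent.K4H90.MU.A

set_option autoImplicit false

/-!
# P3: Muntz for even powers on `[0,K]`
-/

namespace Pool.Agent.K4H66.DM2

open Set

theorem P3_holds : P3 := by
  intro S hS hsum g hg K ε hK hε
  refine MU.conclude hK ?_ g hg ε hε
  intro i
  by_cases hi : i ∈ S ∨ i = 0
  · exact MU.apx_of_mem (MU.mem_VV hi)
  push Not at hi
  have hi1 : 1 ≤ i := Nat.one_le_iff_ne_zero.2 hi.2
  refine MU.apx_mo hS hK hi1 ?_
  intro δ hδ
  refine Pool.Agent.K4H66.OL.muntz ?_ (MU.fin_image S) (MU.sum_image hsum) (by positivity) ?_ hδ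
  · rintro x ⟨j, hj, rfl⟩
    have := hS j hj
    positivity
  · rintro ⟨j, hj, hji⟩
    have : j = i := by
      have h2 : (2:ℝ) * j = 2 * i := hji
      exact_mod_cast (mul_left_cancel₀ (by norm_num : (2:ℝ) ≠ 0) h2)
    exact hi.1 (this ▸ hj)

end Pool.Agent.K4H66.DM2
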