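import Pool.Agent.K4H66.DM2.C
import Pool.Agent.K4H66.DM2.P2
import Pool.Agent.K4H66.DM2.P3

set_option autoImplicit false

/-! Derivative moments against the spectral measure. -/

namespace Pool.Agent.K4H66.DM2

open Complex MeasureTheory Filter Topology Set Pool.Agent.TH535.SM Pool.Agent.K4H66.OL Pool.Agent.R446.KR
  Pool.Agent.K4H66.HL Pool.Agent.K4H66.LP
open scoped ComplexConjugate ContDiff FourierTransform ENNReal

noncomputable section

variable {k : ℕ} {c : ℝ}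

lemma neg_part (k : ℕ) : ∃ C : ℝ, 0 ≤ C ∧ ∀ r : ℝ, |r| ≤ 1 / 4 → ∀ T : ℝ, 0 ≤ T →
    ∫ t in (-1:ℝ)..(T + 1), ‖zr k r t‖ ^ 2 ≤ C + M (zr k r) (T + 1) := by
  obtain ⟨C, p, hC, hb⟩ := zr_bd k
  refine ⟨C * 2 ^ p, by positivity, fun r hr T hT => ?_⟩
  have hc : Continuous (fun t => ‖zr k r t‖ ^ 2) := (zr_cont k hr).norm.pow 2
  rw [← intervalIntegral.integral_add_adjacent_intervals (hc.intervalIntegrable (-1) 0) (hc.intervalIntegrable 0 (T + 1))]
  have h1 : ∫ t in (-1:ℝ)..0, ‖zr k r t‖ ^ 2 ≤ C * 2 ^ p := by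
    calc _ ≤ ∫ t in (-1:ℝ)..0, C * 2 ^ p := by
          refine intervalIntegral.integral_mono_on (by norm_num) (hc.intervalIntegrable _ _)
            intervalIntegrable_const fun t ht => ?_
          refine (hb r hr t).trans ?_
          have : |t| ≤ 1 := by rw [abs_le]; constructor <;> linarith [ht.1, ht.2]
          gcongr
          linarith
      _ = _ := by rw [intervalIntegral.integral_const]; norm_num
  have h2 : ∫ t in (0:ℝ)..(T + 1), ‖zr k r t‖ ^ 2 = M (zr k r) (T + 1) := rfl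
  linarith

lemma V_poly (k n : ℕ) : ∃ (C : ℝ) (q : ℕ), 1 ≤ C ∧ ∀ T, 0 ≤ T → V k n T ≤ C * (1 + T) ^ q := by
  obtain ⟨C, p, hC, hb⟩ := zr_bd k
  refine ⟨(n.factorial : ℝ) ^ 2 * ((1 / 4 : ℝ)⁻¹) ^ (2 * n) * (C * 2 ^ (p + 1)), p + 1, ?_, fun T hT => ?_⟩
  · have h1 : (1:ℝ) ≤ (n.factorial : ℝ) ^ 2 := one_le_pow₀ (by exact_mod_cast n.factorial_pos)
    have h2 : (1:ℝ) ≤ ((1 / 4 : ℝ)⁻¹) ^ (2 * n) := one_le_pow₀ (by norm_num)
    have h3 : (1:ℝ) ≤ 2 ^ (p + 1) := one_le_pow₀ (by norm_num)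
    calc (1:ℝ) = 1 * 1 * (1 * 1) := by norm_num
      _ ≤ _ := by gcongr
  · refine (V_cauchy k n (R := 1 / 4) (by norm_num) le_rfl hT (B := C * 2 ^ (p + 1) * (1 + T) ^ (p + 1)) ?_).trans
      (le_of_eq (by ring))
    intro r hr
    have hc : Continuous (fun t => ‖zr k r t‖ ^ 2) := (zr_cont k hr).norm.pow 2
    calc _ ≤ ∫ t in (-1:ℝ)..(T + 1), C * (2 + T) ^ p := by
          refine intervalIntegral.integral_mono_on (by linarith) (hc.intervalIntegrable _ _)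
            intervalIntegrable_const fun t ht => ?_
          refine (hb r hr t).trans ?_
          have : |t| ≤ T + 1 := by rw [abs_le]; constructor <;> linarith [ht.1, ht.2]
          exact mul_le_mul_of_nonneg_left (pow_le_pow_left₀ (by positivity) (by linarith) p) (by linarith)
      _ = (T + 2) * (C * (2 + T) ^ p) := by rw [intervalIntegral.integral_const, smul_eq_mul]; ring
      _ ≤ (2 * (1 + T)) * (C * (2 * (1 + T)) ^ p) := by gcongr <;> linarith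
      _ = _ := by rw [mul_pow]; ring

lemma V_gr (k n : ℕ) : Gr (V k n) :=
  ⟨V_mono k n, fun T hT => intervalIntegral.integral_nonneg hT fun t _ => by positivity, V_poly k n⟩

lemma s3 : Tendsto (fun T : ℝ => (3 * T + 1) / T) atTop (𝓝 3) := by
  have h : Tendsto (fun T : ℝ => 3 + 1 / T) atTop (𝓝 (3 + 0)) :=
    tendsto_const_nhds.add ((tendsto_const_nhds (x := (1:ℝ))).div_atTop tendsto_id)
  rw [add_zero] at h
  refine h.congr' ?_
  filter_upwards [eventually_gt_atTop 0] with T hT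
  field_simp

/-- the a priori bound for derivatives -/
theorem apr (hm : Tendsto (fun T => M (zr k 0) T / NN (k ^ 2) T) atTop (𝓝 c)) (n : ℕ) : ∃ C : ℝ, 0 ≤ C ∧
    ∀ᶠ T : ℝ in atTop, V k n (3 * T) ≤ C * (Real.log T ^ (2 * n) * NN (k ^ 2) T) := by
  obtain ⟨C2, hC2, h2⟩ := neg_part k
  obtain ⟨C1, T1, hC1, hT1, h1⟩ := Mr_le k (b := 2) (by norm_num)
  have D := zdat k (u := 1) le_rfl
  have ev1 := (mratio (k ^ 2) hm (by norm_num : (0:ℝ) < 3) s3).eventually_le_const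
    (show c * 3 < |c * 3| + 1 by linarith [le_abs_self (c * 3)])
  have hN3 := NN_ratio (k ^ 2) (by norm_num : (0:ℝ) < 3) s3
  have ev2 := hN3.1.eventually_le_const (show (3:ℝ) < 4 by norm_num)
  have ev3 := hN3.2.eventually (bsmall D hm one_pos)
  have ev4 := (NN_inf (k ^ 2)).eventually_ge_atTop 1
  refine ⟨(n.factorial : ℝ) ^ 2 * (C2 + C1 * ((|c * 3| + 1) + 1 + 4)), by positivity, ?_⟩
  filter_upwards [ev1, ev2, ev3, ev4, eventually_ge_atTop (Real.exp 4), eventually_ge_atTop T1] with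
    T a1 a2 a3 a4 a5 a6
  have hT0 : 0 < T := (Real.exp_pos 4).trans_le a5
  have hT4 : 4 ≤ T := by
    have := Real.add_one_le_exp 4
    linarith
  have hL : 4 ≤ Real.log T := by rwa [Real.le_log_iff_exp_le hT0]
  have hN : 0 < NN (k ^ 2) T := NN_pos _ (by linarith)
  rw [div_le_iff₀ hN] at a1 a2
  have hL2 : Real.log (3 * T + 1) ≤ 2 * Real.log T := by
    have h : 3 * T + 1 ≤ T ^ 2 := by nlinarith
    calc Real.log (3 * T + 1) ≤ Real.log (T ^ 2) := Real.log_le_log (by linarith) h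
      _ = 2 * Real.log T := by rw [Real.log_pow]; norm_num
  have hL0 : 0 < Real.log (3 * T + 1) := Real.log_pos (by linarith)
  have hR : (0:ℝ) < 1 / Real.log T := by positivity
  have hR4 : 1 / Real.log T ≤ 1 / 4 := one_div_le_one_div_of_le (by norm_num) hL
  refine (V_cauchy k n hR hR4 (by linarith : (0:ℝ) ≤ 3 * T)
    (B := (C2 + C1 * ((|c * 3| + 1) + 1 + 4)) * NN (k ^ 2) T) ?_).trans (le_of_eq ?_)
  · intro r hr
    have hr4 := hr.trans hR4
    refine (h2 r hr4 (3 * T) (by linarith)).trans ?_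
    have h3 := h1 (3 * T + 1) (by linarith) r (hr.trans (by
      rw [div_le_div_iff₀ (by linarith) hL0]; linarith)) hr4
    have h4 : M (zr k 0) (3 * T + 1) + 1 + B (zr k 0) (3 * T + 1) ≤ ((|c * 3| + 1) + 1 + 4) * NN (k ^ 2) T := by
      linarith
    calc C2 + M (zr k r) (3 * T + 1) ≤ C2 * NN (k ^ 2) T + C1 * (((|c * 3| + 1) + 1 + 4) * NN (k ^ 2) T) := by
          refine add_le_add ?_ (h3.trans (mul_le_mul_of_nonneg_left h4 hC1))
          exact le_mul_of_one_le_right hC2 a4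
      _ = _ := by ring
  · rw [one_div, inv_inv]; ring

lemma sq_pt (x y : ℂ) {η : ℝ} (hη : 0 < η) :
    |‖x‖ ^ 2 - ‖y‖ ^ 2| ≤ η * ‖x‖ ^ 2 + (1 + η⁻¹) * ‖y - x‖ ^ 2 := by
  have h1 : |‖x‖ - ‖y‖| ≤ ‖y - x‖ := by rw [norm_sub_rev]; exact abs_norm_sub_norm_le x y
  have h2 := abs_le.1 h1
  have hi : η * η⁻¹ = 1 := mul_inv_cancel₀ hη.ne'
  have hi0 : 0 < η⁻¹ := inv_pos.2 hη
  set a := ‖x‖
  set b := ‖y‖
  set d := ‖y - x‖
  have ha : 0 ≤ a := norm_nonneg _
  have hb : 0 ≤ b := norm_nonneg _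
  have hd : 0 ≤ d := norm_nonneg _
  have h3 : 2 * a * d ≤ η * a ^ 2 + η⁻¹ * d ^ 2 := by
    have : 0 ≤ η⁻¹ * (η * a - d) ^ 2 := by positivity
    have e : η⁻¹ * (η * a - d) ^ 2 = (η * η⁻¹) * (η * a ^ 2) - 2 * (η * η⁻¹) * (a * d) + η⁻¹ * d ^ 2 := by ring
    rw [e, hi] at this
    linarith
  rw [abs_le]
  constructor
  · have h4 : b ^ 2 - a ^ 2 ≤ 2 * a * d + d ^ 2 := by nlinarith
    nlinarith
  · have h4 : a ^ 2 - b ^ 2 ≤ 2 * a * d := by
      by_cases h : b ≤ a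
      · nlinarith
      · push Not at h
        nlinarith [mul_nonneg ha hd]
    nlinarith [sq_nonneg d]

/-- derivatives against differences on `[T,2T]` -/
theorem S1 (hm : Tendsto (fun T => M (zr k 0) T / NN (k ^ 2) T) atTop (𝓝 c)) (n : ℕ) :
    ∃ C : ℝ, 0 ≤ C ∧ ∀ η : ℝ, 0 < η → η ≤ 1 → ∀ᶠ T : ℝ in atTop,
      |(V k n (2 * T) - V k n T) - ∫ t in T..(2 * T),
        ‖((η / Real.log T)⁻¹ : ℝ) ^ n • (fwdDiff (η / Real.log T))^[n] (zr k 0) t‖ ^ 2| ≤
        C * η * (Real.log T ^ (2 * n) * NN (k ^ 2) T) := by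
  obtain ⟨C2, hC2, h2⟩ := P2_holds n
  obtain ⟨A0, hA0, hA0'⟩ := apr hm n
  obtain ⟨A1, hA1, hA1'⟩ := apr hm (n + 1)
  refine ⟨A0 + 2 * (C2 * A1), by positivity, fun η hη hη1 => ?_⟩
  filter_upwards [hA0', hA1', eventually_ge_atTop (max 4 (n + 1 : ℝ))] with T a0 a1 a2
  have hT4 : 4 ≤ T := (le_max_left _ _).trans a2
  have hTn : (n:ℝ) + 1 ≤ T := (le_max_right _ _).trans a2
  have hL : 1 ≤ Real.log T := by
    rw [Real.le_log_iff_exp_le (by linarith)]
    have := Real.exp_one_lt_d9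
    linarith
  set h : ℝ := η / Real.log T with hh
  have hh0 : 0 < h := by positivity
  have hh1 : h ≤ 1 := by
    rw [hh, div_le_one (by linarith)]; linarith
  have h3 := h2 (zr k 0) (zr_smooth k) T (2 * T) h (by linarith) hh0
  have h4 : ∫ t in T..(2 * T + n * h), ‖iteratedDeriv (n + 1) (zr k 0) t‖ ^ 2 ≤ V k (n + 1) (3 * T) := by
    rw [← V_sub]
    have h5 : (n:ℝ) * h ≤ T := by
      calc (n:ℝ) * h ≤ n * 1 := by gcongr
        _ ≤ T := by linarith
    have h6 := V_mono k (n + 1) (show 2 * T + n * h ≤ 3 * T by linarith)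
    have h7 := (V_gr k (n + 1)).nn T (by linarith)
    linarith
  have hI1 : IntervalIntegrable (fun t => ‖iteratedDeriv n (zr k 0) t‖ ^ 2) volume T (2 * T) := V_int k n _ _
  have hc2 : Continuous (fun t => (h⁻¹ : ℝ) ^ n • (fwdDiff h)^[n] (zr k 0) t) := by
    have h0 := fd_cont (zdat k (u := 1) le_rfl).zc h n
    fun_prop
  have hI2 : IntervalIntegrable (fun t => ‖(h⁻¹ : ℝ) ^ n • (fwdDiff h)^[n] (zr k 0) t‖ ^ 2) volume T (2 * T) :=
    (hc2.norm.pow 2).intervalIntegrable _ _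
  have hI3 : IntervalIntegrable (fun t => ‖(h⁻¹ : ℝ) ^ n • (fwdDiff h)^[n] (zr k 0) t -
      iteratedDeriv n (zr k 0) t‖ ^ 2) volume T (2 * T) :=
    (((hc2.sub (id_cont k n)).norm.pow 2)).intervalIntegrable _ _
  rw [V_sub, ← intervalIntegral.integral_sub hI1 hI2]
  have h8 : |∫ t in T..(2 * T), (‖iteratedDeriv n (zr k 0) t‖ ^ 2 - ‖(h⁻¹ : ℝ) ^ n • (fwdDiff h)^[n] (zr k 0) t‖ ^ 2)| ≤
      ∫ t in T..(2 * T), (η * ‖iteratedDeriv n (zr k 0) t‖ ^ 2 + (1 + η⁻¹) *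
        ‖(h⁻¹ : ℝ) ^ n • (fwdDiff h)^[n] (zr k 0) t - iteratedDeriv n (zr k 0) t‖ ^ 2) := by
    refine (intervalIntegral.abs_integral_le_integral_abs (by linarith)).trans ?_
    exact intervalIntegral.integral_mono_on (by linarith) (hI1.sub hI2).abs
      ((hI1.const_mul η).add (hI3.const_mul _)) fun t _ => sq_pt _ _ hη
  refine h8.trans ?_
  rw [intervalIntegral.integral_add (hI1.const_mul η) (hI3.const_mul _), intervalIntegral.integral_const_mul,
    intervalIntegral.integral_const_mul, ← V_sub]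
  have h9 : V k n (2 * T) - V k n T ≤ A0 * (Real.log T ^ (2 * n) * NN (k ^ 2) T) := by
    have h6 := V_mono k n (show 2 * T ≤ 3 * T by linarith)
    have h7 := (V_gr k n).nn T (by linarith)
    linarith
  have hN : 0 < NN (k ^ 2) T := NN_pos _ (by linarith)
  have h10 : ∫ t in T..(2 * T), ‖(h⁻¹ : ℝ) ^ n • (fwdDiff h)^[n] (zr k 0) t - iteratedDeriv n (zr k 0) t‖ ^ 2 ≤
      C2 * A1 * η ^ 2 * (Real.log T ^ (2 * n) * NN (k ^ 2) T) := by
    refine h3.trans ?_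
    calc C2 * h ^ 2 * _ ≤ C2 * h ^ 2 * (A1 * (Real.log T ^ (2 * (n + 1)) * NN (k ^ 2) T)) := by
          gcongr
          exact h4.trans a1
      _ = _ := by
          rw [hh, div_pow, mul_add, pow_add]
          field_simp
          ring
  have hη2 : (1 + η⁻¹) * η ^ 2 ≤ 2 * η := by
    have e : (1 + η⁻¹) * η ^ 2 = η ^ 2 + η := by field_simp
    rw [e]; nlinarith
  have hi0 : 0 < η⁻¹ := inv_pos.2 hη
  have hX : 0 ≤ Real.log T ^ (2 * n) * NN (k ^ 2) T := by positivity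
  calc _ ≤ η * (A0 * (Real.log T ^ (2 * n) * NN (k ^ 2) T)) +
        (1 + η⁻¹) * (C2 * A1 * η ^ 2 * (Real.log T ^ (2 * n) * NN (k ^ 2) T)) := by gcongr
    _ = A0 * η * (Real.log T ^ (2 * n) * NN (k ^ 2) T) + (C2 * A1) * ((1 + η⁻¹) * η ^ 2) *
        (Real.log T ^ (2 * n) * NN (k ^ 2) T) := by ring
    _ ≤ A0 * η * (Real.log T ^ (2 * n) * NN (k ^ 2) T) + (C2 * A1) * (2 * η) *
        (Real.log T ^ (2 * n) * NN (k ^ 2) T) := by gcongr
    _ = _ := by ring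

end

end Pool.Agent.K4H66.DM2
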