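import Pool.Agent.K4H66.DM2.D

set_option autoImplicit false

/-! The derivative moments are moments of the spectral measure. -/

namespace Pool.Agent.K4H66.DM2

open Complex MeasureTheory Filter Topology Set Pool.Agent.TH535.SM Pool.Agent.K4H66.OL Pool.Agent.R446.KR
  Pool.Agent.K4H66.HL Pool.Agent.K4H66.LP
open scoped ComplexConjugate ContDiff FourierTransform ENNReal

noncomputable section

variable {k : ℕ} {c : ℝ} {f : ℝ → ℝ}

/-- the cut-off monomial -/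
def xf (f : ℝ → ℝ) (n : ℕ) (x : ℝ) : ℝ := x ^ n * f x

lemma xf_TS (h : TS (cx f)) (n : ℕ) : TS (cx (xf f n)) := by
  have h1 : ContDiff ℝ ∞ (fun x : ℝ => ((x ^ n : ℝ) : ℂ)) :=
    Complex.ofRealCLM.contDiff.comp (contDiff_id.pow n)
  have e : cx (xf f n) = fun x => ((x ^ n : ℝ) : ℂ) * cx f x := by
    funext x
    unfold cx xf
    push_cast; ring
  refine ⟨?_, ?_⟩
  · rw [e]; exact h1.mul h.cd
  · rw [e]; exact h.cs.mul_left

lemma xf_sq (f : ℝ → ℝ) (n : ℕ) (x : ℝ) : ‖cx (xf f n) x‖ ^ 2 = x ^ (2 * n) * f x ^ 2 := by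
  rw [cx_sq]
  unfold xf
  rw [mul_pow, ← pow_mul, mul_comm n 2]

/-- the derivative moments in the window are the moments of the spectral measure -/
theorem claimB (hm : Tendsto (fun T => M (zr k 0) T / NN (k ^ 2) T) atTop (𝓝 c)) (h : TS (cx f))
    (hf1 : ∀ x ∈ Icc (-1:ℝ) (k + 1), f x = 1) {u : ℕ} (hu : 2 ≤ u) (n : ℕ) :
    Tendsto (fun T => ((V k n (2 * T) - V k n T) / Real.log T ^ (2 * n) -
      Sf k u T (fun x => ‖cx (xf f n) x‖ ^ 2)) / NN (k ^ 2) T) atTop (𝓝 0) := by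
  obtain ⟨C1, hC1, h1⟩ := S1 hm n
  have hk : (0:ℝ) ≤ k := Nat.cast_nonneg k
  set C3 : ℝ := 2 * n * (2 * ((k:ℝ) + 1) + 1) ^ (2 * n) * ((k:ℝ) + 1) ^ 2 with hC3
  have hC30 : 0 ≤ C3 := by positivity
  have hx := xf_TS h n
  obtain ⟨b, hb0, hb⟩ := hx.bdd
  rw [Metric.tendsto_nhds]
  intro ε hε
  set K : ℝ := C1 + 3 * (C3 + 1) * (|c * 2| + 3) with hK
  have hK0 : 0 < K := by positivity
  set η : ℝ := min (min 1 (1 / (n + 1))) (min (1 / ((k:ℝ) + 1)) (ε / (4 * K))) with hη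
  have hη0 : 0 < η := by positivity
  have hη1 : η ≤ 1 := (min_le_left _ _).trans (min_le_left _ _)
  have hηn : η * n ≤ 1 := by
    have : η ≤ 1 / (n + 1) := (min_le_left _ _).trans (min_le_right _ _)
    calc η * n ≤ 1 / (n + 1) * n := by gcongr
      _ = n / (n + 1) := by ring
      _ ≤ 1 := by rw [div_le_one (by positivity)]; linarith
  have hηk : η * ((k:ℝ) + 1) ≤ 1 := by
    have : η ≤ 1 / ((k:ℝ) + 1) := (min_le_right _ _).trans (min_le_left _ _)
    calc η * ((k:ℝ) + 1) ≤ 1 / ((k:ℝ) + 1) * ((k:ℝ) + 1) := by gcongr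
      _ = 1 := by field_simp
  have hηε : K * η ≤ ε / 4 := by
    have : η ≤ ε / (4 * K) := (min_le_right _ _).trans (min_le_right _ _)
    calc K * η ≤ K * (ε / (4 * K)) := by gcongr
      _ = ε / 4 := by field_simp
  -- the Fourier side
  have hd := SmE_lim hm (dd_close k (u := u) (by omega) n hη0 hηn)
  have ev2 := (Metric.tendsto_nhds.1 (hd.const_mul ((η⁻¹) ^ (2 * n)))) (ε / 4) (by positivity)
  have hct1 : Continuous (fun x => (η⁻¹) ^ (2 * n) * mn η n x) := (mn_cont η n).const_mul _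
  have hct2 : Continuous (fun x => (-1:ℝ) * ‖cx (xf f n) x‖ ^ 2) := (sq_ct hx).const_mul _
  have hb1 : ∀ x, |(η⁻¹) ^ (2 * n) * mn η n x| ≤ (η⁻¹) ^ (2 * n) * 2 ^ (2 * n) := by
    intro x
    rw [abs_mul, abs_of_nonneg (by positivity : (0:ℝ) ≤ (η⁻¹) ^ (2 * n))]
    exact mul_le_mul_of_nonneg_left (mn_abs η n x) (by positivity)
  have hb2 : ∀ x, |(-1:ℝ) * ‖cx (xf f n) x‖ ^ 2| ≤ b ^ 2 := by
    intro x
    rw [abs_mul, abs_neg, abs_one, one_mul, abs_of_nonneg (by positivity)]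
    exact pow_le_pow_left₀ (norm_nonneg _) (hb x) 2
  have hsup : SmE k (3 * ((C3 + 1) * η)) (fun T => Sf k u T (fun x => (η⁻¹) ^ (2 * n) * mn η n x +
      (-1) * ‖cx (xf f n) x‖ ^ 2)) := by
    refine sup_small k hu (hct1.add hct2) (b := (η⁻¹) ^ (2 * n) * 2 ^ (2 * n) + b ^ 2)
      (η := (C3 + 1) * η) (fun x => (abs_add_le _ _).trans (add_le_add (hb1 x) (hb2 x))) (by positivity) fun x hx => ?_
    change |(η⁻¹) ^ (2 * n) * mn η n x + (-1) * ‖cx (xf f n) x‖ ^ 2| ≤ (C3 + 1) * η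
    rw [xf_sq, hf1 x hx, one_pow, mul_one, neg_one_mul, ← sub_eq_add_neg]
    refine (mn_small n (by positivity : (0:ℝ) ≤ (k:ℝ) + 1) hη0 hηk (x := x) ?_).trans ?_
    · rw [abs_le]; constructor <;> linarith [hx.1, hx.2]
    · have : C3 * η ≤ (C3 + 1) * η := by nlinarith
      exact this
  have ev3 := SmE_ev hm (by positivity) hsup
  filter_upwards [h1 η hη0 hη1, ev2, ev3, eventually_ge_atTop 4] with T a1 a2 a3 a4
  have hT1 : 1 < T := by linarith
  have hL : 0 < Real.log T := Real.log_pos hT1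
  have hN : 0 < NN (k ^ 2) T := NN_pos _ hT1
  have hLn : 0 < Real.log T ^ (2 * n) := by positivity
  rw [Real.dist_eq, mul_zero, sub_zero] at a2
  rw [Real.dist_eq, sub_zero]
  rw [Sf_add k (u := u) (by omega) hT1.le hct1 hct2 hb1 hb2, Sf_mul, Sf_mul] at a3
  have e1 : ∫ t in T..(2 * T), ‖((η / Real.log T)⁻¹ : ℝ) ^ n • (fwdDiff (η / Real.log T))^[n] (zr k 0) t‖ ^ 2 =
      (Real.log T ^ (2 * n) * (η⁻¹) ^ (2 * n)) * ∫ t in T..(2 * T), ‖(fwdDiff (η / Real.log T))^[n] (zr k 0) t‖ ^ 2 := by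
    rw [← intervalIntegral.integral_const_mul]
    refine intervalIntegral.integral_congr fun t _ => ?_
    beta_reduce
    rw [norm_smul, norm_pow, Real.norm_of_nonneg (by positivity), mul_pow, ← pow_mul, inv_div, div_eq_mul_inv,
      mul_pow, mul_comm n 2]
  rw [e1] at a1
  obtain ⟨X, hX⟩ : ∃ X, X = ∫ t in T..(2 * T), ‖(fwdDiff (η / Real.log T))^[n] (zr k 0) t‖ ^ 2 := ⟨_, rfl⟩
  rw [← hX] at a1 a2
  obtain ⟨S, hS⟩ : ∃ S, S = Sf k u T (mn η n) := ⟨_, rfl⟩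
  rw [← hS] at a2 a3
  have b1 : |((V k n (2 * T) - V k n T) / Real.log T ^ (2 * n) - (η⁻¹) ^ (2 * n) * X) / NN (k ^ 2) T| ≤ C1 * η := by
    rw [abs_div, abs_of_pos hN, div_le_iff₀ hN]
    have e2 : (V k n (2 * T) - V k n T) / Real.log T ^ (2 * n) - (η⁻¹) ^ (2 * n) * X =
        ((V k n (2 * T) - V k n T) - (Real.log T ^ (2 * n) * (η⁻¹) ^ (2 * n)) * X) / Real.log T ^ (2 * n) := by
      field_simp
    rw [e2, abs_div, abs_of_pos hLn, div_le_iff₀ hLn]
    refine a1.trans (le_of_eq (by ring))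
  have e3 : ((V k n (2 * T) - V k n T) / Real.log T ^ (2 * n) - Sf k u T (fun x => ‖cx (xf f n) x‖ ^ 2)) / NN (k ^ 2) T =
      ((V k n (2 * T) - V k n T) / Real.log T ^ (2 * n) - (η⁻¹) ^ (2 * n) * X) / NN (k ^ 2) T +
      (η⁻¹) ^ (2 * n) * ((X - S) / NN (k ^ 2) T) +
      ((η⁻¹) ^ (2 * n) * S + (-1) * Sf k u T (fun x => ‖cx (xf f n) x‖ ^ 2)) / NN (k ^ 2) T := by
    ring
  rw [e3]
  have b2 : C1 * η + 3 * ((C3 + 1) * η) * (|c * 2| + 3) ≤ ε / 4 := by
    refine le_trans (le_of_eq ?_) hηε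
    rw [hK]; ring
  have c1 := abs_le.1 b1
  have c2 := abs_lt.1 a2
  have c3 := abs_le.1 a3
  rw [abs_lt]
  constructor <;> linarith [c1.1, c1.2, c2.1, c2.2, c3.1, c3.2]

lemma NN_add (q m : ℕ) (T : ℝ) : NN (q + m) T = NN q T * Real.log T ^ m := by
  unfold NN; rw [pow_add]; ring

/-- derivative moments and moments of the spectral measure -/
theorem V_iff (hm : Tendsto (fun T => M (zr k 0) T / NN (k ^ 2) T) atTop (𝓝 c)) (h : TS (cx f))
    (hf1 : ∀ x ∈ Icc (-1:ℝ) (k + 1), f x = 1) {u : ℕ} (hu : 2 ≤ u) (n : ℕ) (v : ℝ) :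
    Tendsto (fun T => V k n T / NN (k ^ 2 + 2 * n) T) atTop (𝓝 v) ↔
    Tendsto (fun T => Sf k u T (fun x => ‖cx (xf f n) x‖ ^ 2) / NN (k ^ 2) T) atTop (𝓝 v) := by
  have hc : Cmp (V k n) (fun T => V k n (2 * T) - V k n T) (k ^ 2 + 2 * n) := by
    intro ε hε
    refine ⟨0, 4, le_rfl, le_rfl, fun T hT => ?_⟩
    have h1 : 0 ≤ V k n (2 * T) := (V_gr k n).nn _ (by linarith)
    have h2 := (NN_pos (k ^ 2 + 2 * n) (show 1 < T by linarith)).le
    rw [sub_self, abs_zero, zero_mul, add_zero]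
    positivity
  rw [tb_iff (V_gr k n) hc]
  have hB := claimB hm h hf1 hu n
  constructor
  · intro h1
    have h2 := h1.sub hB
    rw [sub_zero] at h2
    refine h2.congr' ?_
    filter_upwards [eventually_ge_atTop 4] with T hT
    have hL : 0 < Real.log T := Real.log_pos (by linarith)
    have hN : 0 < NN (k ^ 2) T := NN_pos _ (by linarith)
    rw [NN_add]
    field_simp
    ring
  · intro h1
    have h2 := h1.add hB
    rw [add_zero] at h2
    refine h2.congr' ?_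
    filter_upwards [eventually_ge_atTop 4] with T hT
    have hL : 0 < Real.log T := Real.log_pos (by linarith)
    have hN : 0 < NN (k ^ 2) T := NN_pos _ (by linarith)
    rw [NN_add]
    field_simp
    ring

end

end Pool.Agent.K4H66.DM2
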