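import Pool.Agent.K4H66.LP.D
import Pool.Agent.K4H66.DM2.E

set_option autoImplicit false

/-! The matrix side: derivative moments of characteristic polynomials. -/

namespace Pool.Agent.K4H66.DM2

open Complex MeasureTheory Filter Topology Set Pool.Agent.TH535.SM Pool.Agent.K4H66.OL Pool.Agent.R446.KR
  Pool.Agent.K4H66.HL Pool.Agent.K4H66.LP
open scoped ComplexConjugate ContDiff FourierTransform ENNReal

noncomputable section

variable {k : ℕ} {f : ℝ → ℝ}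

/-- the power of the characteristic polynomial on the unit circle -/
def dz (k N : ℕ) (U : Matrix (Fin N) (Fin N) ℂ) (θ : ℝ) : ℂ := (1 - cexp (θ * I) • U).det ^ k

lemma dz_deriv (k N n : ℕ) (U : Matrix (Fin N) (Fin N) ℂ) : iteratedDeriv n (dz k N U) = fun θ : ℝ =>
    ∑ m ∈ Finset.range (k * N + 1), (pp k U).coeff m * (I * m) ^ n * cexp ((m : ℂ) * (θ * I)) := by
  induction n with
  | zero =>
    funext θ
    rw [iteratedDeriv_zero]
    unfold dz
    rw [← pp_eval, Polynomial.eval_eq_sum_range' (pp_deg k U)]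
    refine Finset.sum_congr rfl fun m _ => ?_
    rw [pow_zero, mul_one, Complex.exp_nat_mul]
  | succ n ih =>
    funext θ
    rw [iteratedDeriv_succ, ih]
    refine HasDerivAt.deriv ?_
    have h : ∀ m ∈ Finset.range (k * N + 1), HasDerivAt
        (fun θ : ℝ => (pp k U).coeff m * (I * m) ^ n * cexp ((m : ℂ) * (θ * I)))
        ((pp k U).coeff m * (I * m) ^ (n + 1) * cexp ((m : ℂ) * (θ * I))) θ := by
      intro m _
      have h1 : HasDerivAt (fun w : ℂ => (m : ℂ) * (w * I)) ((m : ℂ) * I) (θ : ℂ) := by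
        have := ((hasDerivAt_id (θ : ℂ)).mul_const I).const_mul (m : ℂ)
        simpa using this
      have h2 := (h1.cexp.const_mul ((pp k U).coeff m * (I * m) ^ n)).comp_ofReal
      convert h2 using 1
      rw [pow_succ]; ring
    exact HasDerivAt.fun_sum h

lemma dz_at (k : ℕ) {N : ℕ} (hN : 1 ≤ N) (n : ℕ) (U : Matrix (Fin N) (Fin N) ℂ) :
    ‖iteratedDeriv n (dz k N U) 0‖ ^ 2 = (N : ℝ) ^ (2 * n) * ‖Pt (fun x => ((x ^ n : ℝ) : ℂ)) k N U‖ ^ 2 := by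
  have hN0 : (0:ℝ) < N := by exact_mod_cast hN
  have hNc : (N : ℂ) ≠ 0 := by exact_mod_cast hN0.ne'
  rw [dz_deriv]
  beta_reduce
  have e : ∑ m ∈ Finset.range (k * N + 1), (pp k U).coeff m * (I * m) ^ n * cexp ((m : ℂ) * (((0:ℝ) : ℂ) * I)) =
      (I ^ n * (N : ℂ) ^ n) * Pt (fun x => ((x ^ n : ℝ) : ℂ)) k N U := by
    unfold Pt
    rw [Finset.mul_sum]
    refine Finset.sum_congr rfl fun m _ => ?_
    rw [Complex.ofReal_zero, zero_mul, mul_zero, Complex.exp_zero]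
    push_cast
    rw [div_pow, mul_pow]
    field_simp
  rw [e, norm_mul, norm_mul, norm_pow, norm_pow, Complex.norm_I, one_pow, one_mul, Complex.norm_natCast, mul_pow,
    ← pow_mul, mul_comm n 2]

lemma oN_cut (hf1 : ∀ x ∈ Icc (-1:ℝ) (k + 1), f x = 1) (n : ℕ) {N : ℕ} (hN : 1 ≤ N) :
    oN k N (fun x => ‖((x ^ n : ℝ) : ℂ)‖ ^ 2) = oN k N (fun x => ‖cx (xf f n) x‖ ^ 2) := by
  have h1 := oN_bound k hN (g := fun x => ‖((x ^ n : ℝ) : ℂ)‖ ^ 2 + (-1) * ‖cx (xf f n) x‖ ^ 2) (η := 0) fun x hx => by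
    rw [xf_sq, hf1 x ⟨by linarith [hx.1], by linarith [hx.2]⟩, Complex.norm_real, Real.norm_eq_abs, sq_abs]
    refine le_of_eq ?_
    rw [abs_eq_zero, mul_comm 2 n, pow_mul]
    ring
  rw [oN_add, oN_mul, zero_mul] at h1
  have h2 := abs_eq_zero.1 (le_antisymm h1 (abs_nonneg _))
  linarith

/-- `N^(-k²-2n) ∫ |(d/dθ)^n det(1-e^{iθ}U)^k|²` -/
def mtD (k n N : ℕ) : ℝ := ((N : ℝ) ^ (k ^ 2 + 2 * n))⁻¹ *
  ∫ U : Matrix.unitaryGroup (Fin N) ℂ, ‖iteratedDeriv n (dz k N (U : Matrix (Fin N) (Fin N) ℂ)) 0‖ ^ 2 ∂(haarU N)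

theorem mtD_eq (hf1 : ∀ x ∈ Icc (-1:ℝ) (k + 1), f x = 1) (n : ℕ) {N : ℕ} (hN : 1 ≤ N) :
    mtD k n N = oN k N (fun x => ‖cx (xf f n) x‖ ^ 2) := by
  have hN0 : (0:ℝ) < N := by exact_mod_cast hN
  rw [← oN_cut hf1 n hN, ← Pt_ms]
  unfold mtD
  simp_rw [dz_at k hN n]
  rw [integral_const_mul, pow_add]
  field_simp

end

end Pool.Agent.K4H66.DM2
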