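import Pool.Agent.K4H66.LP.E
import Pool.Agent.K4H66.DM2.F
import Pool.Agent.K4H66.DM2.P3

set_option autoImplicit false

/-! Derivative moments and shifted moments. -/

namespace Pool.Agent.K4H66.DM2

open Complex MeasureTheory Filter Topology Set Pool.Agent.TH535.SM Pool.Agent.K4H66.OL Pool.Agent.R446.KR
  Pool.Agent.K4H66.HL Pool.Agent.K4H66.LP
open scoped ComplexConjugate ContDiff FourierTransform ENNReal

noncomputable section

variable {k : ℕ} {c a : ℝ} {f : ℝ → ℝ} {W : ℝ → ℂ}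

/-- the derivative moments of the characteristic polynomials have limits -/
theorem mtD_exists (hW : ∀ α : ℝ, Tendsto (fun N : ℕ => Wk k α N) atTop (𝓝 (W α))) (n : ℕ) :
    ∃ w : ℝ, Tendsto (fun N : ℕ => mtD k n N) atTop (𝓝 w) := by
  obtain ⟨f, hf, -, -, hf1⟩ := exists_one k
  obtain ⟨w, hw⟩ := oN_exists hW (xf_TS hf n)
  refine ⟨w, hw.congr' ?_⟩
  filter_upwards [eventually_ge_atTop 1] with N hN using (mtD_eq hf1 n hN).symm

lemma mt_lim (hf1 : ∀ x ∈ Icc (-1:ℝ) (k + 1), f x = 1) (n : ℕ) {w : ℝ} :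
    Tendsto (fun N : ℕ => mtD k n N) atTop (𝓝 w) ↔
    Tendsto (fun N : ℕ => oN k N (fun x => ‖cx (xf f n) x‖ ^ 2)) atTop (𝓝 w) := by
  refine tendsto_congr' ?_
  filter_upwards [eventually_ge_atTop 1] with N hN using mtD_eq hf1 n hN

/-- all shifted moments determine all derivative moments -/
theorem fwd (hW : ∀ α : ℝ, Tendsto (fun N : ℕ => Wk k α N) atTop (𝓝 (W α)))
    (hX : ∀ α : ℝ, Tendsto (Xs k α) atTop (𝓝 ((a : ℂ) * W α))) (n : ℕ) {w : ℝ}
    (hw : Tendsto (fun N : ℕ => mtD k n N) atTop (𝓝 w)) :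
    Tendsto (fun T => V k n T / NN (k ^ 2 + 2 * n) T) atTop (𝓝 (a * w)) := by
  obtain ⟨f, hf, -, -, hf1⟩ := exists_one k
  have hm : Tendsto (fun T => M (zr k 0) T / NN (k ^ 2) T) atTop (𝓝 (((a : ℂ) * W 0).re)) := by
    have h1 := (Complex.continuous_re.tendsto _).comp (hX 0)
    refine h1.congr fun T => ?_
    simp only [Function.comp]
    rw [Xs_zero, Complex.ofReal_re]
  rw [V_iff hm hf hf1 (u := 2) le_rfl]
  have h1 := forward hW hX (xf_TS hf n) ((mt_lim hf1 n).1 hw)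
  have h2 := SmE_lim hm (md_neg (xf_TS hf n) k (u := 2) (by norm_num))
  have h3 := h1.sub h2
  rw [sub_zero] at h3
  refine h3.congr fun T => ?_
  ring

/-- from the real parts to the shifted moments -/
theorem concl (hW : ∀ α : ℝ, Tendsto (fun N : ℕ => Wk k α N) atTop (𝓝 (W α)))
    (hm : Tendsto (fun T => M (zr k 0) T / NN (k ^ 2) T) atTop (𝓝 c)) (α : ℝ)
    (hqr : Tendsto (fun T => (ro k α * Qd (zr k 0) (α / Real.log T) T).re / NN (k ^ 2) T) atTop
      (𝓝 (a * (ro k α * W α).re))) :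
    Tendsto (Xs k α) atTop (𝓝 ((a : ℂ) * W α)) := by
  refine Xs_of_Qd α hm ?_
  have him : (ro k α * W α).im = 0 := by
    have h1 : Tendsto (fun N : ℕ => (ro k α * Wk k α N).im) atTop (𝓝 (ro k α * W α).im) :=
      (Complex.continuous_im.tendsto _).comp ((hW α).const_mul _)
    refine tendsto_nhds_unique h1 ?_
    refine tendsto_const_nhds.congr' ?_
    filter_upwards [eventually_ge_atTop 1] with N hN
    exact (Complex.conj_eq_iff_im.1 (Wk_real k hN α)).symm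
  have hqi : Tendsto (fun T => (ro k α * Qd (zr k 0) (α / Real.log T) T).im / NN (k ^ 2) T) atTop (𝓝 0) :=
    SmE_lim hm fun ε hε => im_small k α hε
  have hq : Tendsto (fun T => ro k α * (Qd (zr k 0) (α / Real.log T) T / ((NN (k ^ 2) T : ℝ) : ℂ))) atTop
      (𝓝 ((a : ℂ) * (ro k α * W α))) := by
    have h1 : Tendsto (fun T => (((ro k α * Qd (zr k 0) (α / Real.log T) T).re / NN (k ^ 2) T : ℝ) : ℂ) +
        (((ro k α * Qd (zr k 0) (α / Real.log T) T).im / NN (k ^ 2) T : ℝ) : ℂ) * I) atTop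
        (𝓝 (((a * (ro k α * W α).re : ℝ) : ℂ) + ((0 : ℝ) : ℂ) * I)) :=
      ((Complex.continuous_ofReal.tendsto _).comp hqr).add
        (((Complex.continuous_ofReal.tendsto _).comp hqi).mul_const I)
    have e1 : ((a * (ro k α * W α).re : ℝ) : ℂ) + ((0 : ℝ) : ℂ) * I = (a : ℂ) * (ro k α * W α) := by
      have := Complex.re_add_im (ro k α * W α)
      rw [him] at this
      rw [← this]
      push_cast
      simp
    rw [e1] at h1
    refine h1.congr fun T => ?_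
    set w := ro k α * Qd (zr k 0) (α / Real.log T) T with hw
    have e2 : ro k α * (Qd (zr k 0) (α / Real.log T) T / ((NN (k ^ 2) T : ℝ) : ℂ)) = w / ((NN (k ^ 2) T : ℝ) : ℂ) := by
      rw [hw]; ring
    rw [e2]
    conv_rhs => rw [← Complex.re_add_im w]
    push_cast
    ring
  have hne : ro k α ≠ 0 := by
    intro h
    have := ro_norm k α
    rw [h, norm_zero] at this
    exact zero_ne_one this
  have h2 := hq.const_mul (ro k α)⁻¹
  have e3 : (ro k α)⁻¹ * ((a : ℂ) * (ro k α * W α)) = (a : ℂ) * W α := by field_simp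
  rw [e3] at h2
  refine h2.congr fun T => ?_
  rw [inv_mul_cancel_left₀ hne]

lemma cos_even (k : ℕ) (α x : ℝ) : |Real.cos (α * (k - 2 * x)) - Real.cos (α * (k - 2 * (-x)))| ≤ 4 * |α| * |x| := by
  refine (Real.abs_cos_sub_cos_le _ _).trans ?_
  have e : α * (k - 2 * x) - α * (k - 2 * (-x)) = -4 * (α * x) := by ring
  rw [e, abs_mul, abs_mul]
  norm_num
  rw [mul_assoc]

/-- approximation of the cosine by the cut-off even monomials -/
lemma approx (hf1 : ∀ x ∈ Icc (-1:ℝ) (k + 1), f x = 1) {S : Set ℕ} (hS : ∀ j ∈ S, 1 ≤ j)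
    (hsum : ¬ Summable (fun j : S => ((j : ℕ) : ℝ)⁻¹)) (α : ℝ) {ε : ℝ} (hε : 0 < ε) :
    ∃ (s : Finset ℕ) (r : ℕ → ℝ) (δ : ℝ), (∀ j ∈ s, j ∈ S ∨ j = 0) ∧ 0 < δ ∧ δ ≤ 1 ∧
      ∀ x ∈ Icc (-δ) (k + δ), |Real.cos (α * (k - 2 * x)) + (-1) * ∑ j ∈ s, r j * ‖cx (xf f j) x‖ ^ 2| ≤ 2 * ε := by
  have hk : (0:ℝ) ≤ k := Nat.cast_nonneg k
  obtain ⟨s, r, hs, hr⟩ := P3_holds S hS hsum (fun x => Real.cos (α * (k - 2 * x))) (by fun_prop) (k + 1) ε
    (by positivity) hε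
  refine ⟨s, r, min 1 (ε / (4 * |α| + 1)), hs, by positivity, min_le_left _ _, fun x hx => ?_⟩
  set δ : ℝ := min 1 (ε / (4 * |α| + 1)) with hδ
  have hδ1 : δ ≤ 1 := min_le_left _ _
  have hδ0 : 0 < δ := by positivity
  have hδε : 4 * |α| * δ ≤ ε := by
    have h1 : δ ≤ ε / (4 * |α| + 1) := min_le_right _ _
    calc 4 * |α| * δ ≤ (4 * |α| + 1) * δ := by gcongr; linarith
      _ ≤ (4 * |α| + 1) * (ε / (4 * |α| + 1)) := by gcongr
      _ = ε := by field_simp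
  have e : ∑ j ∈ s, r j * ‖cx (xf f j) x‖ ^ 2 = ∑ j ∈ s, r j * x ^ (2 * j) := by
    refine Finset.sum_congr rfl fun j _ => ?_
    rw [xf_sq, hf1 x ⟨by linarith [hx.1], by linarith [hx.2]⟩, one_pow, mul_one]
  rw [e, neg_one_mul, ← sub_eq_add_neg]
  rcases le_or_gt 0 x with h0 | h0
  · have := hr x ⟨h0, by linarith [hx.2]⟩
    beta_reduce at this
    linarith
  · have h1 := hr (-x) ⟨by linarith, by linarith [hx.1]⟩
    beta_reduce at h1
    have e2 : ∑ j ∈ s, r j * (-x) ^ (2 * j) = ∑ j ∈ s, r j * x ^ (2 * j) := by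
      refine Finset.sum_congr rfl fun j _ => ?_
      rw [pow_mul, neg_sq, ← pow_mul]
    rw [e2] at h1
    have h2 := cos_even k α x
    have h3 : 4 * |α| * |x| ≤ ε := by
      refine le_trans ?_ hδε
      have : |x| ≤ δ := by rw [abs_of_neg h0]; linarith [hx.1]
      gcongr
    have e3 : Real.cos (α * (k - 2 * x)) - ∑ j ∈ s, r j * x ^ (2 * j) =
        (Real.cos (α * (k - 2 * x)) - Real.cos (α * (k - 2 * (-x)))) +
        (Real.cos (α * (k - 2 * (-x))) - ∑ j ∈ s, r j * x ^ (2 * j)) := by ring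
    rw [e3]
    refine (abs_add_le _ _).trans ?_
    linarith

lemma Sf_fsum (k : ℕ) {u : ℕ} (hu : 1 ≤ u) {T : ℝ} (hT : 1 ≤ T) (s : Finset ℕ) (r : ℕ → ℝ) {g : ℕ → ℝ → ℝ}
    (hg : ∀ j, Continuous (g j)) {b : ℕ → ℝ} (hb : ∀ j x, |g j x| ≤ b j) :
    Sf k u T (fun x => ∑ j ∈ s, r j * g j x) = ∑ j ∈ s, r j * Sf k u T (g j) := by
  classical
  induction s using Finset.induction_on with
  | empty =>
    unfold Sf
    simp
  | insert a s ha ih =>
    simp only [Finset.sum_insert ha]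
    rw [Sf_add k hu hT ((hg a).const_mul (r a)) (continuous_finsetSum _ fun j _ => (hg j).const_mul (r j))
      (b1 := |r a| * b a) (b2 := ∑ j ∈ s, |r j| * b j), Sf_mul, ih]
    · intro x
      rw [abs_mul]
      exact mul_le_mul_of_nonneg_left (hb a x) (abs_nonneg _)
    · intro x
      refine (Finset.abs_sum_le_sum_abs _ _).trans (Finset.sum_le_sum fun j _ => ?_)
      rw [abs_mul]
      exact mul_le_mul_of_nonneg_left (hb j x) (abs_nonneg _)

/-- the derivative moments of orders in a set with divergent sum of reciprocals determine all shifted moments -/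
theorem bwd (hW : ∀ α : ℝ, Tendsto (fun N : ℕ => Wk k α N) atTop (𝓝 (W α))) {S : Set ℕ} (hS : ∀ j ∈ S, 1 ≤ j)
    (hsum : ¬ Summable (fun j : S => ((j : ℕ) : ℝ)⁻¹))
    (hV : ∀ n : ℕ, (n ∈ S ∨ n = 0) → ∀ w : ℝ, Tendsto (fun N : ℕ => mtD k n N) atTop (𝓝 w) →
      Tendsto (fun T => V k n T / NN (k ^ 2 + 2 * n) T) atTop (𝓝 (a * w))) (α : ℝ) :
    Tendsto (Xs k α) atTop (𝓝 ((a : ℂ) * W α)) := by
  obtain ⟨f, hf, -, -, hf1⟩ := exists_one k
  have hex : ∀ n, ∃ w : ℝ, Tendsto (fun N : ℕ => mtD k n N) atTop (𝓝 w) := fun n => mtD_exists hW n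
  choose w hw using hex
  have hk : (0:ℝ) ≤ k := Nat.cast_nonneg k
  obtain ⟨c, hc⟩ : ∃ c, c = a * w 0 := ⟨_, rfl⟩
  have hm : Tendsto (fun T => M (zr k 0) T / NN (k ^ 2) T) atTop (𝓝 c) := by
    rw [hc]
    have := hV 0 (Or.inr rfl) _ (hw 0)
    simp only [mul_zero, add_zero, V_zero] at this
    exact this
  refine concl hW hm α ?_
  have hb' : ∀ j : ℕ, ∃ b : ℝ, ∀ x, |‖cx (xf f j) x‖ ^ 2| ≤ b := by
    intro j
    obtain ⟨b, hb0, hb⟩ := (xf_TS hf j).bdd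
    refine ⟨b ^ 2, fun x => ?_⟩
    rw [abs_of_nonneg (by positivity)]
    exact pow_le_pow_left₀ (norm_nonneg _) (hb x) 2
  choose b hb using hb'
  rw [Metric.tendsto_nhds]
  intro ε hε
  set K : ℝ := 6 * (|c * 2| + 3) + 2 * (|a| * (‖W 0‖ + 1)) + 1 with hK
  have hK0 : 0 < K := by positivity
  set e : ℝ := ε / (4 * K) with he
  have he0 : 0 < e := by positivity
  have heK : K * e = ε / 4 := by rw [he]; field_simp
  obtain ⟨s, r, δ, hs, hδ0, hδ1, hap⟩ := approx hf1 hS hsum α he0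
  obtain ⟨u, hu⟩ := exists_nat_ge (2 / δ)
  have huδ : 2 ≤ δ * u := by
    rw [div_le_iff₀ hδ0] at hu
    linarith
  have hu2 : 2 ≤ u := by
    have h1 : (2:ℝ) ≤ u := by
      have h2 : δ * u ≤ 1 * u := by gcongr
      linarith
    exact_mod_cast h1
  have hu1 : 1 ≤ u := by omega
  -- the function to be made small
  have hcos : Continuous (fun x : ℝ => Real.cos (α * (k - 2 * x))) := by fun_prop
  have hcosb : ∀ x : ℝ, |Real.cos (α * (k - 2 * x))| ≤ 1 := fun x => Real.abs_cos_le_one _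
  have hsumc : Continuous (fun x : ℝ => (-1:ℝ) * ∑ j ∈ s, r j * ‖cx (xf f j) x‖ ^ 2) :=
    (continuous_finsetSum _ fun j _ => (sq_ct (xf_TS hf j)).const_mul (r j)).const_mul (-1)
  have hsumb : ∀ x : ℝ, |(-1:ℝ) * ∑ j ∈ s, r j * ‖cx (xf f j) x‖ ^ 2| ≤ ∑ j ∈ s, |r j| * b j := by
    intro x
    rw [abs_mul, abs_neg, abs_one, one_mul]
    refine (Finset.abs_sum_le_sum_abs _ _).trans (Finset.sum_le_sum fun j _ => ?_)
    rw [abs_mul]
    exact mul_le_mul_of_nonneg_left (hb j x) (abs_nonneg _)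
  have hG : SmE k (3 * (2 * e)) (fun T => Sf k u T (fun x => Real.cos (α * (k - 2 * x)) +
      (-1) * ∑ j ∈ s, r j * ‖cx (xf f j) x‖ ^ 2)) := by
    obtain ⟨C, T0, hC, hT0, h⟩ := Sf_sup k hδ0 hδ1 huδ (hcos.add hsumc) (b := 1 + ∑ j ∈ s, |r j| * b j)
      (η := 2 * e) (fun x => (abs_add_le _ _).trans (add_le_add (hcosb x) (hsumb x))) (by positivity) hap
    refine SmE_of k hu1 (by positivity) ⟨C, T0, hC, hT0, fun T hT => (h T hT).trans ?_⟩
    have h1 : 0 ≤ M (zr k 0) (2 * T) := (mo_gr k).nn _ (by linarith)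
    have h2 := mul_le_mul_of_nonneg_left (Rm_pos (zr k 0) T) hC
    have h3 := mul_nonneg (by positivity : 0 ≤ 2 * e) h1
    linarith
  -- the matrix side
  have hmat : |(ro k α * W α).re - ∑ j ∈ s, r j * w j| ≤ 2 * e * ‖W 0‖ := by
    have h1 : Tendsto (fun N : ℕ => (ro k α * Wk k α N).re) atTop (𝓝 (ro k α * W α).re) :=
      (Complex.continuous_re.tendsto _).comp ((hW α).const_mul _)
    have h2 : Tendsto (fun N : ℕ => ∑ j ∈ s, r j * oN k N (fun x => ‖cx (xf f j) x‖ ^ 2)) atTop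
        (𝓝 (∑ j ∈ s, r j * w j)) :=
      tendsto_finsetSum _ fun j _ => ((mt_lim hf1 j).1 (hw j)).const_mul _
    refine le_of_tendsto_of_tendsto ((h1.sub h2).abs) ((hW 0).norm.const_mul (2 * e)) ?_
    filter_upwards [eventually_ge_atTop 1] with N hN
    have h3 := oN_bound k hN (g := fun x => Real.cos (α * (k - 2 * x)) +
      (-1) * ∑ j ∈ s, r j * ‖cx (xf f j) x‖ ^ 2) (η := 2 * e) fun x hx =>
        hap x ⟨by linarith [hx.1], by linarith [hx.2]⟩
    rw [oN_add, oN_mul, oN_sum] at h3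
    simp_rw [oN_mul] at h3
    have h4 := oN_cos k hN α 0
    simp only [add_zero, Complex.ofReal_zero, zero_mul, Complex.exp_zero, one_mul] at h4
    rw [h4] at h3
    refine le_trans (le_of_eq ?_) h3
    congr 1
    ring
  -- the zeta side
  have z1 := SmE_lim hm (fun ε hε => SmE_dy k α hu1 hε (ro k α) (ro_norm k α))
  have z2 := SmE_ev hm (by positivity) hG
  have z3 : Tendsto (fun T => ∑ j ∈ s, r j * (Sf k u T (fun x => ‖cx (xf f j) x‖ ^ 2) / NN (k ^ 2) T)) atTop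
      (𝓝 (∑ j ∈ s, r j * (a * w j))) :=
    tendsto_finsetSum _ fun j hj => ((V_iff hm hf hf1 hu2 j _).1 (hV j (hs j hj) _ (hw j))).const_mul _
  have ev1 := (Metric.tendsto_nhds.1 z1) (ε / 4) (by positivity)
  have ev3 := (Metric.tendsto_nhds.1 z3) (ε / 4) (by positivity)
  filter_upwards [ev1, z2, ev3, eventually_ge_atTop 4] with T a1 a2 a3 a4
  have hT1 : 1 < T := by linarith
  have hN : 0 < NN (k ^ 2) T := NN_pos _ hT1
  rw [Real.dist_eq, sub_zero] at a1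
  rw [Real.dist_eq] at a3 ⊢
  have hSp := SpC_re k hu1 hT1 α 0
  simp only [add_zero] at hSp
  have hSp' : (ro k α * SpC (f1 (H k u) T) (α / Real.log T)).re = Sf k u T (fun x => Real.cos (α * (k - 2 * x))) := by
    rw [← hSp]; rfl
  rw [hSp'] at a1
  rw [Sf_add k hu1 hT1.le hcos hsumc hcosb hsumb, Sf_mul,
    Sf_fsum k hu1 hT1.le s r (fun j => sq_ct (xf_TS hf j)) hb] at a2
  obtain ⟨X, hX⟩ : ∃ X, X = (ro k α * Qd (zr k 0) (α / Real.log T) T).re := ⟨_, rfl⟩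
  obtain ⟨Y, hY⟩ : ∃ Y, Y = Sf k u T (fun x => Real.cos (α * (k - 2 * x))) := ⟨_, rfl⟩
  rw [← hX, ← hY] at a1
  rw [← hY] at a2
  rw [← hX]
  have e1 : ∑ j ∈ s, r j * (Sf k u T (fun x => ‖cx (xf f j) x‖ ^ 2) / NN (k ^ 2) T) =
      (∑ j ∈ s, r j * Sf k u T (fun x => ‖cx (xf f j) x‖ ^ 2)) / NN (k ^ 2) T := by
    rw [Finset.sum_div]
    exact Finset.sum_congr rfl fun j _ => by ring
  have e2 : ∑ j ∈ s, r j * (a * w j) = a * ∑ j ∈ s, r j * w j := by
    rw [Finset.mul_sum]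
    exact Finset.sum_congr rfl fun j _ => by ring
  rw [e1, e2] at a3
  obtain ⟨Z, hZ⟩ : ∃ Z, Z = ∑ j ∈ s, r j * Sf k u T (fun x => ‖cx (xf f j) x‖ ^ 2) := ⟨_, rfl⟩
  rw [← hZ] at a2 a3
  obtain ⟨R, hR⟩ : ∃ R, R = ∑ j ∈ s, r j * w j := ⟨_, rfl⟩
  rw [← hR] at a3 hmat
  have e3 : X / NN (k ^ 2) T - a * (ro k α * W α).re = (X - Y) / NN (k ^ 2) T + (Y + (-1) * Z) / NN (k ^ 2) T +
      (Z / NN (k ^ 2) T - a * R) - a * ((ro k α * W α).re - R) := by ring
  rw [e3]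
  have b2 : |a * ((ro k α * W α).re - R)| ≤ 2 * (|a| * (‖W 0‖ + 1)) * e := by
    rw [abs_mul]
    calc _ ≤ |a| * (2 * e * ‖W 0‖) := by gcongr
      _ ≤ |a| * (2 * e * (‖W 0‖ + 1)) := by gcongr; linarith
      _ = _ := by ring
  have b3 : 3 * (2 * e) * (|c * 2| + 3) + 2 * (|a| * (‖W 0‖ + 1)) * e ≤ ε / 4 := by
    rw [← heK, hK]
    have : 0 ≤ e := he0.le
    linarith
  have c1 := abs_lt.1 a1
  have c2 := abs_le.1 a2
  have c3 := abs_lt.1 a3
  have c4 := abs_le.1 b2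
  rw [abs_lt]
  constructor <;> linarith [c1.1, c1.2, c2.1, c2.2, c3.1, c3.2, c4.1, c4.2]

end

end Pool.Agent.K4H66.DM2
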